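import Pool.Agent.V1186.Torus.Energy

set_option autoImplicit false

/-!
Classification of the maximizers for `α ≥ 1`.
-/

namespace Pool.Agent.V1186.Torus

open MeasureTheory Set Topology
open scoped ENNReal

/-- the balanced measures on the four point cosets -/
noncomputable def mix (u : UnitAddCircle × UnitAddCircle) (s : ℝ) :
    Measure (UnitAddCircle × UnitAddCircle) :=
  four u (ENNReal.ofReal s) (ENNReal.ofReal (1/2 - s)) (ENNReal.ofReal (1/2 - s)) (ENNReal.ofReal s)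

theorem mix_prob (u : UnitAddCircle × UnitAddCircle) {s : ℝ} (h0 : 0 ≤ s) (h1 : s ≤ 1/2) :
    IsProbabilityMeasure (mix u s) := by
  constructor
  unfold mix four
  simp only [Measure.coe_add, Measure.coe_smul, Pi.add_apply, Pi.smul_apply, measure_univ,
    smul_eq_mul, mul_one]
  rw [← ENNReal.ofReal_add h0 (by linarith), ← ENNReal.ofReal_add (by linarith) (by linarith),
    ← ENNReal.ofReal_add (by linarith) h0, ← ENNReal.ofReal_one]
  congr 1; ring

theorem mix_En (u : UnitAddCircle × UnitAddCircle) {s : ℝ} (h0 : 0 ≤ s) (h1 : s ≤ 1/2) {α : ℝ}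
    (hα : 0 < α) : En α (mix u s) = qq α / 2 - 4 * (s * (1/2 - s)) * (qq α - 2 * pp α) := by
  unfold mix
  rw [four_En u ENNReal.ofReal_ne_top ENNReal.ofReal_ne_top ENNReal.ofReal_ne_top
    ENNReal.ofReal_ne_top hα, ENNReal.toReal_ofReal h0, ENNReal.toReal_ofReal (by linarith)]
  ring

theorem eq_case {α : ℝ} (h1 : 1 ≤ α) (h2 : α ≤ 2) {μ : Measure (UnitAddCircle × UnitAddCircle)}
    [hμ : IsProbabilityMeasure μ] (h : En α μ = (2 * pp α + qq α) / 4) :
    ∃ (u : UnitAddCircle × UnitAddCircle) (s : ℝ), 0 ≤ s ∧ s ≤ 1/2 ∧ μ = mix u s ∧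
      (α < 2 → s = 1/4) := by
  have hid := En_identity (by linarith : 0 < α) μ
  have a1 : 0 ≤ ∫ p, (LL α ‖p.1.1 - p.2.1‖ ‖p.1.2 - p.2.2‖ -
      FF α ‖p.1.1 - p.2.1‖ ‖p.1.2 - p.2.2‖) ∂(μ.prod μ) := integral_nonneg (gap_nonneg h1)
  have b1 := E1_nonneg μ
  have b2 := E2_nonneg μ
  have b3 := E12_nonneg μ
  have hq := qq_pos α
  have a2 : 0 ≤ qq α * (E1 μ + E2 μ) := mul_nonneg hq.le (add_nonneg b1 b2)
  have hc : 0 ≤ 2 * pp α - qq α := by
    rcases lt_or_eq_of_le h2 with h | h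
    · linarith [(two_pp (α := α)).1 h]
    · linarith [(two_pp (α := α)).2.2 h]
  have a3 : 0 ≤ 4 * (2 * pp α - qq α) * E12 μ := mul_nonneg (by linarith) b3
  rw [h, sub_self] at hid
  have z1 : ∫ p, (LL α ‖p.1.1 - p.2.1‖ ‖p.1.2 - p.2.2‖ -
      FF α ‖p.1.1 - p.2.1‖ ‖p.1.2 - p.2.2‖) ∂(μ.prod μ) = 0 := by linarith
  have z2 : qq α * (E1 μ + E2 μ) = 0 := by linarith
  have z3 : 4 * (2 * pp α - qq α) * E12 μ = 0 := by linarith
  have z2' : E1 μ + E2 μ = 0 := by
    rcases mul_eq_zero.1 z2 with h | h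
    · exact absurd h hq.ne'
    · exact h
  have hE1 : E1 μ = 0 := by linarith
  have hE2 : E2 μ = 0 := by linarith
  have hsup : ∀ x ∈ μ.support, ∀ y ∈ μ.support,
      x.1 = y.1 ∨ x.2 = y.2 ∨ (x.1 - y.1 = hf ∧ x.2 - y.2 = hf) := by
    intro x hx y hy
    have hz := support_zero ((LL_cont α).sub (FF_cont (by linarith : 0 < α))) (gap_nonneg h1) z1 hx hy
    by_contra hcon
    push Not at hcon
    obtain ⟨c1, c2, c3⟩ := hcon
    have n1 : 0 < ‖x.1 - y.1‖ := norm_pos_iff.2 (sub_ne_zero.2 c1)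
    have n2 : 0 < ‖x.2 - y.2‖ := norm_pos_iff.2 (sub_ne_zero.2 c2)
    have hlt := FF_lt h1 n1 (norm_le_half _) n2 (norm_le_half _)
      (fun hh => c3 (eq_hf hh.1) (eq_hf hh.2))
    have hz' : LL α ‖x.1 - y.1‖ ‖x.2 - y.2‖ - FF α ‖x.1 - y.1‖ ‖x.2 - y.2‖ = 0 := hz
    linarith
  obtain ⟨u, m0, m1, m2, m3, hμ4⟩ := structure_four hsup hE1 hE2
  have htot : m0 + m1 + m2 + m3 = 1 := by
    have := hμ.measure_univ
    rw [hμ4] at this
    unfold four at this
    simpa only [Measure.coe_add, Measure.coe_smul, Pi.add_apply, Pi.smul_apply, measure_univ,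
      smul_eq_mul, mul_one] using this
  have f0 : m0 ≠ ⊤ := by rintro rfl; simp at htot
  have f1 : m1 ≠ ⊤ := by rintro rfl; simp at htot
  have f2 : m2 ≠ ⊤ := by rintro rfl; simp at htot
  have f3 : m3 ≠ ⊤ := by rintro rfl; simp at htot
  have hsum : m0.toReal + m1.toReal + m2.toReal + m3.toReal = 1 := by
    rw [← ENNReal.toReal_add f0 f1, ← ENNReal.toReal_add (ENNReal.add_ne_top.2 ⟨f0, f1⟩) f2,
      ← ENNReal.toReal_add (ENNReal.add_ne_top.2 ⟨ENNReal.add_ne_top.2 ⟨f0, f1⟩, f2⟩) f3, htot,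
      ENNReal.toReal_one]
  rw [hμ4, four_E1 u f0 f1 f2 f3] at hE1
  rw [hμ4, four_E2 u f0 f1 f2 f3] at hE2
  have g1 : m0.toReal + m2.toReal - m1.toReal - m3.toReal = 0 := by
    have : (m0.toReal + m2.toReal - m1.toReal - m3.toReal) ^ 2 = 0 := by linarith
    exact pow_eq_zero_iff (two_ne_zero) |>.1 this
  have g2 : m0.toReal + m1.toReal - m2.toReal - m3.toReal = 0 := by
    have : (m0.toReal + m1.toReal - m2.toReal - m3.toReal) ^ 2 = 0 := by linarith
    exact pow_eq_zero_iff (two_ne_zero) |>.1 this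
  have p0 : 0 ≤ m0.toReal := ENNReal.toReal_nonneg
  have p1 : 0 ≤ m1.toReal := ENNReal.toReal_nonneg
  refine ⟨u, m0.toReal, p0, by linarith, ?_, ?_⟩
  · rw [hμ4]
    unfold mix
    have e1 : m1 = ENNReal.ofReal (1/2 - m0.toReal) := by
      rw [← ENNReal.ofReal_toReal f1]; congr 1; linarith
    have e2 : m2 = ENNReal.ofReal (1/2 - m0.toReal) := by
      rw [← ENNReal.ofReal_toReal f2]; congr 1; linarith
    have e3 : m3 = ENNReal.ofReal m0.toReal := by
      rw [← ENNReal.ofReal_toReal f3]; congr 1; linarith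
    rw [← e1, ENNReal.ofReal_toReal f0]
    have e12 : m2 = m1 := by rw [e2, ← e1]
    have e03 : m3 = m0 := by rw [e3, ENNReal.ofReal_toReal f0]
    rw [e12, e03]
  · intro hα2
    have hc' : 0 < 2 * pp α - qq α := by linarith [(two_pp (α := α)).1 hα2]
    have z3' : E12 μ = 0 := by
      rcases mul_eq_zero.1 z3 with h | h
      · linarith
      · exact h
    rw [hμ4, four_E12 u f0 f1 f2 f3] at z3'
    have g3 : m0.toReal + m3.toReal - m1.toReal - m2.toReal = 0 := by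
      have : (m0.toReal + m3.toReal - m1.toReal - m2.toReal) ^ 2 = 0 := by linarith
      exact pow_eq_zero_iff (two_ne_zero) |>.1 this
    linarith

/-- maximizers -/
def IsMax (α : ℝ) (μ : Measure (UnitAddCircle × UnitAddCircle)) : Prop :=
  IsProbabilityMeasure μ ∧
    ∀ ν : Measure (UnitAddCircle × UnitAddCircle), IsProbabilityMeasure ν → En α ν ≤ En α μ

theorem isMax_lt_two {α : ℝ} (h1 : 1 ≤ α) (h2 : α < 2) (μ : Measure (UnitAddCircle × UnitAddCircle)) :
    IsMax α μ ↔ ∃ u, μ = mix u (1/4) := by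
  have hα : 0 < α := by linarith
  have hval : ∀ u, En α (mix u (1/4)) = (2 * pp α + qq α) / 4 := by
    intro u
    rw [mix_En u (by norm_num) (by norm_num) hα]; ring
  constructor
  · rintro ⟨hp, hmax⟩
    have a1 := En_le h1 h2.le μ
    have a2 := hmax _ (mix_prob 0 (by norm_num) (by norm_num : (1/4:ℝ) ≤ 1/2))
    rw [hval] at a2
    obtain ⟨u, s, -, -, hμ, hs⟩ := eq_case h1 h2.le (le_antisymm a1 a2)
    exact ⟨u, by rw [hμ, hs h2]⟩
  · rintro ⟨u, rfl⟩
    refine ⟨mix_prob u (by norm_num) (by norm_num), fun ν hν => ?_⟩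
    rw [hval]
    exact En_le h1 h2.le ν

theorem isMax_two (μ : Measure (UnitAddCircle × UnitAddCircle)) :
    IsMax 2 μ ↔ ∃ u, ∃ s : ℝ, 0 ≤ s ∧ s ≤ 1/2 ∧ μ = mix u s := by
  have hq := (two_pp (α := 2)).2.2 rfl
  have hval : ∀ u (s : ℝ), 0 ≤ s → s ≤ 1/2 → En 2 (mix u s) = (2 * pp 2 + qq 2) / 4 := by
    intro u s h0 h1
    rw [mix_En u h0 h1 (by norm_num)]
    rw [hq]; ring
  constructor
  · rintro ⟨hp, hmax⟩
    have a1 := En_le (by norm_num) le_rfl μ
    have a2 := hmax _ (mix_prob 0 (by norm_num) (by norm_num : (1/4:ℝ) ≤ 1/2))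
    rw [hval _ _ (by norm_num) (by norm_num)] at a2
    obtain ⟨u, s, h0, h1, hμ, -⟩ := eq_case (by norm_num) le_rfl (le_antisymm a1 a2)
    exact ⟨u, s, h0, h1, hμ⟩
  · rintro ⟨u, s, h0, h1, rfl⟩
    refine ⟨mix_prob u h0 h1, fun ν hν => ?_⟩
    rw [hval _ _ h0 h1]
    exact En_le (by norm_num) le_rfl ν

theorem pp_two : pp 2 = 1/4 := by unfold pp; norm_num
theorem qq_two : qq 2 = 1/2 := by rw [← (two_pp (α := 2)).2.2 rfl, pp_two]; norm_num

theorem En_le_two {α : ℝ} (h2 : 2 ≤ α) (μ : Measure (UnitAddCircle × UnitAddCircle))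
    [IsProbabilityMeasure μ] : En α μ ≤ 2 * qq α * En 2 μ := by
  have e0 : ∀ β : ℝ, 0 < β → En β μ = ∫ p, FF β ‖p.1.1 - p.2.1‖ ‖p.1.2 - p.2.2‖ ∂(μ.prod μ) := by
    intro β hβ
    rw [← int_prod (FF_cont hβ)]
    rfl
  rw [e0 α (by linarith), e0 2 (by norm_num), ← integral_const_mul]
  apply integral_mono (int_cont (FF_cont (by linarith))) ((int_cont (FF_cont (by norm_num))).const_mul _)
  intro p
  exact FF_two h2 (norm_nonneg _) (norm_le_half _) (norm_nonneg _) (norm_le_half _)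

theorem isMax_gt_two {α : ℝ} (h2 : 2 < α) (μ : Measure (UnitAddCircle × UnitAddCircle)) :
    IsMax α μ ↔ ∃ u, μ = mix u (1/2) := by
  have hα : 0 < α := by linarith
  have hq := qq_pos α
  have hub : ∀ ν : Measure (UnitAddCircle × UnitAddCircle), IsProbabilityMeasure ν →
      En α ν ≤ qq α / 2 ∧ (En α ν = qq α / 2 → En 2 ν = (2 * pp 2 + qq 2) / 4) := by
    intro ν hν
    have a1 := En_le_two h2.le ν
    have a2 := En_le (by norm_num) le_rfl ν (α := 2)
    rw [pp_two, qq_two] at a2 ⊢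
    have a3 := mul_le_mul_of_nonneg_left a2 (by linarith : 0 ≤ 2 * qq α)
    refine ⟨by linarith, fun h => ?_⟩
    apply le_antisymm a2
    have a4 : 2 * qq α * ((2 * (1/4) + 1/2) / 4) ≤ 2 * qq α * En 2 ν := by linarith
    exact le_of_mul_le_mul_left a4 (by linarith)
  have hval : ∀ u, En α (mix u (1/2)) = qq α / 2 := by
    intro u
    rw [mix_En u (by norm_num) (by norm_num) hα]; ring
  constructor
  · rintro ⟨hp, hmax⟩
    have a2 := hmax _ (mix_prob 0 (by norm_num) (by norm_num : (1/2:ℝ) ≤ 1/2))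
    rw [hval] at a2
    have a3 := le_antisymm (hub μ hp).1 a2
    obtain ⟨u, s, h0, h1, hμ, -⟩ := eq_case (by norm_num) le_rfl ((hub μ hp).2 a3)
    rw [hμ, mix_En u h0 h1 hα] at a3
    have hc : 0 < qq α - 2 * pp α := by linarith [(two_pp (α := α)).2.1 h2]
    have h3 : s * (1/2 - s) = 0 := by
      have h4 : (s * (1/2 - s)) * (qq α - 2 * pp α) = 0 := by linarith
      rcases mul_eq_zero.1 h4 with h | h
      · exact h
      · exact absurd h hc.ne'
    rcases mul_eq_zero.1 h3 with h | h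
    · refine ⟨u + (hf, 0), ?_⟩
      rw [hμ, h]
      unfold mix four
      have e1 : u + (hf, 0) + (hf, hf) = u + (0, hf) := by
        ext
        · show u.1 + hf + hf = u.1 + 0
          rw [add_assoc, hf_add]
        · show u.2 + 0 + hf = u.2 + hf
          rw [add_zero]
      rw [e1]
      simp
    · have hs : s = 1/2 := by linarith
      exact ⟨u, by rw [hμ, hs]⟩
  · rintro ⟨u, rfl⟩
    refine ⟨mix_prob u (by norm_num) (by norm_num), fun ν hν => ?_⟩
    rw [hval]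
    exact (hub ν hν).1

theorem isMax_nu {α : ℝ} (hα : 0 < α) (u : UnitAddCircle × UnitAddCircle) :
    IsMax α (mix u (1/2)) ↔ 2 ≤ α := by
  constructor
  · rintro ⟨-, hmax⟩
    by_contra hcon
    push Not at hcon
    have a1 := hmax _ (mix_prob 0 (by norm_num) (by norm_num : (1/4:ℝ) ≤ 1/2))
    rw [mix_En _ (by norm_num) (by norm_num) hα, mix_En _ (by norm_num) (by norm_num) hα] at a1
    have := (two_pp (α := α)).1 hcon
    linarith
  · intro h
    rcases eq_or_lt_of_le h with h | h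
    · rw [← h]
      exact (isMax_two _).2 ⟨u, 1/2, by norm_num, le_rfl, rfl⟩
    · exact (isMax_gt_two h _).2 ⟨u, rfl⟩

end Pool.Agent.V1186.Torus
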