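import Mathlib

set_option autoImplicit false

/-!
The bilinear majorant of `(a² + b²)^{α/2}` on `[0,1/2]²`.
-/

namespace Pool.Agent.V1186.Torus

open Set

/-- `(a² + b²)^{α/2}` -/
noncomputable def FF (α a b : ℝ) : ℝ := √(a ^ 2 + b ^ 2) ^ α
/-- value at `(1/2, 0)` -/
noncomputable def pp (α : ℝ) : ℝ := (1/2 : ℝ) ^ α
/-- value at `(1/2, 1/2)` -/
noncomputable def qq (α : ℝ) : ℝ := √(1/2) ^ α
/-- bilinear interpolation -/
noncomputable def LL (α a b : ℝ) : ℝ := 2 * pp α * (a + b) + 4 * (qq α - 2 * pp α) * (a * b)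

theorem pp_pos (α : ℝ) : 0 < pp α := Real.rpow_pos_of_pos (by norm_num) _
theorem qq_pos (α : ℝ) : 0 < qq α := Real.rpow_pos_of_pos (Real.sqrt_pos.2 (by norm_num)) _

theorem qq_sq (α : ℝ) : qq α ^ 2 = pp α := by
  unfold qq pp
  rw [← Real.rpow_natCast, ← Real.rpow_mul (Real.sqrt_nonneg _), mul_comm, Real.rpow_mul (Real.sqrt_nonneg _),
    Real.rpow_natCast, Real.sq_sqrt (by norm_num)]

theorem qq_eq (α : ℝ) : qq α = (1/2 : ℝ) ^ (α / 2) := by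
  unfold qq
  rw [Real.sqrt_eq_rpow, ← Real.rpow_mul (by norm_num)]
  congr 1; ring

/-- `2p ≥ q` iff `α ≤ 2` -/
theorem two_pp {α : ℝ} : (α < 2 → qq α < 2 * pp α) ∧ (2 < α → 2 * pp α < qq α) ∧
    (α = 2 → 2 * pp α = qq α) := by
  have e : 2 * pp α = (1/2 : ℝ) ^ (α - 1) := by
    unfold pp
    rw [Real.rpow_sub (by norm_num), Real.rpow_one]
    ring
  rw [e, qq_eq]
  refine ⟨fun h => ?_, fun h => ?_, fun h => ?_⟩
  · exact Real.rpow_lt_rpow_of_exponent_gt (by norm_num) (by norm_num) (by linarith)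
  · exact Real.rpow_lt_rpow_of_exponent_gt (by norm_num) (by norm_num) (by linarith)
  · rw [h]; norm_num

theorem conv_pow {α θ u v : ℝ} (hα : 1 ≤ α) (h0 : 0 ≤ θ) (h1 : θ ≤ 1) (hu : 0 ≤ u) (hv : 0 ≤ v) :
    ((1 - θ) * u + θ * v) ^ α ≤ (1 - θ) * u ^ α + θ * v ^ α := by
  have h := (convexOn_rpow hα).2 (mem_Ici.2 hu) (mem_Ici.2 hv) (sub_nonneg.2 h1) h0 (by ring)
  simpa using h

theorem norm_conv {a b : ℝ} (ha : 0 ≤ a) (ha' : a ≤ 1/2) (hb : 0 ≤ b) :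
    √(a ^ 2 + b ^ 2) ≤ (1 - 2 * a) * b + 2 * a * √((1/2) ^ 2 + b ^ 2) := by
  set r := √((1/2) ^ 2 + b ^ 2) with hr
  have hr2 : r ^ 2 = (1/2) ^ 2 + b ^ 2 := Real.sq_sqrt (by positivity)
  have hr0 : 0 ≤ r := Real.sqrt_nonneg _
  have hbr : b ≤ r := Real.le_sqrt_of_sq_le (by linarith [sq_nonneg (1/2 : ℝ)])
  have h1 : 0 ≤ 1 - 2 * a := by linarith
  apply Real.sqrt_le_iff.2
  refine ⟨by positivity, ?_⟩
  have h2 : 0 ≤ (1 - 2 * a) * (2 * a) * b * (r - b) := by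
    have := sub_nonneg.2 hbr
    positivity
  have h3 : ((1 - 2 * a) * b + 2 * a * r) ^ 2 =
      (1 - 2 * a) ^ 2 * b ^ 2 + (2 * a) ^ 2 * r ^ 2 + 2 * ((1 - 2 * a) * (2 * a) * b * r) := by ring
  rw [h3, hr2]
  nlinarith

theorem norm_conv_lt {a b : ℝ} (ha : 0 < a) (ha' : a < 1/2) (hb : 0 < b) :
    √(a ^ 2 + b ^ 2) < (1 - 2 * a) * b + 2 * a * √((1/2) ^ 2 + b ^ 2) := by
  set r := √((1/2) ^ 2 + b ^ 2) with hr
  have hr2 : r ^ 2 = (1/2) ^ 2 + b ^ 2 := Real.sq_sqrt (by positivity)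
  have hr0 : 0 ≤ r := Real.sqrt_nonneg _
  have hbr : b < r := by
    apply Real.lt_sqrt_of_sq_lt
    norm_num
  have h1 : 0 < 1 - 2 * a := by linarith
  rw [Real.sqrt_lt' (by positivity)]
  have h2 : 0 < (1 - 2 * a) * (2 * a) * b * (r - b) := by
    have := sub_pos.2 hbr
    positivity
  have h3 : ((1 - 2 * a) * b + 2 * a * r) ^ 2 =
      (1 - 2 * a) ^ 2 * b ^ 2 + (2 * a) ^ 2 * r ^ 2 + 2 * ((1 - 2 * a) * (2 * a) * b * r) := by ring
  rw [h3, hr2]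
  nlinarith

theorem edge0 {α b : ℝ} (hα : 1 ≤ α) (hb : 0 ≤ b) (hb' : b ≤ 1/2) : b ^ α ≤ 2 * b * pp α := by
  have h := conv_pow (u := 0) (v := 1/2) hα (by linarith : 0 ≤ 2 * b) (by linarith) le_rfl (by norm_num)
  rw [mul_zero, zero_add, Real.zero_rpow (by linarith), mul_zero, zero_add] at h
  have e : 2 * b * (1/2) = b := by ring
  rw [e] at h
  exact h

theorem half_zero : √((1/2 : ℝ) ^ 2 + 0 ^ 2) = 1/2 := by
  rw [zero_pow (by norm_num), add_zero, Real.sqrt_sq (by norm_num)]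

theorem half_half : √((1/2 : ℝ) ^ 2 + (1/2) ^ 2) = √(1/2) := by norm_num

theorem edge1 {α b : ℝ} (hα : 1 ≤ α) (hb : 0 ≤ b) (hb' : b ≤ 1/2) :
    FF α (1/2) b ≤ (1 - 2 * b) * pp α + 2 * b * qq α := by
  unfold FF
  have h1 := norm_conv hb hb' (b := 1/2) (by norm_num)
  rw [half_half] at h1
  have e : √((1/2 : ℝ) ^ 2 + b ^ 2) = √(b ^ 2 + (1/2) ^ 2) := by rw [add_comm]
  rw [e]
  refine (Real.rpow_le_rpow (Real.sqrt_nonneg _) h1 (by linarith)).trans ?_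
  exact conv_pow hα (by linarith) (by linarith) (by norm_num) (Real.sqrt_nonneg _)

theorem edge1_lt {α b : ℝ} (hα : 1 ≤ α) (hb : 0 < b) (hb' : b < 1/2) :
    FF α (1/2) b < (1 - 2 * b) * pp α + 2 * b * qq α := by
  unfold FF
  have h1 := norm_conv_lt hb hb' (b := 1/2) (by norm_num)
  rw [half_half] at h1
  have e : √((1/2 : ℝ) ^ 2 + b ^ 2) = √(b ^ 2 + (1/2) ^ 2) := by rw [add_comm]
  rw [e]
  refine (Real.rpow_lt_rpow (Real.sqrt_nonneg _) h1 (by linarith)).trans_le ?_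
  exact conv_pow hα (by linarith) (by linarith) (by norm_num) (Real.sqrt_nonneg _)

theorem FF_le {α a b : ℝ} (hα : 1 ≤ α) (ha : 0 ≤ a) (ha' : a ≤ 1/2) (hb : 0 ≤ b) (hb' : b ≤ 1/2) :
    FF α a b ≤ LL α a b := by
  have h1 : FF α a b ≤ (1 - 2 * a) * b ^ α + 2 * a * FF α (1/2) b := by
    unfold FF
    exact (Real.rpow_le_rpow (Real.sqrt_nonneg _) (norm_conv ha ha' hb) (by linarith)).trans
      (conv_pow hα (by linarith) (by linarith) hb (Real.sqrt_nonneg _))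
  have h2 := mul_le_mul_of_nonneg_left (edge0 hα hb hb') (by linarith : 0 ≤ 1 - 2 * a)
  have h3 := mul_le_mul_of_nonneg_left (edge1 hα hb hb') (by linarith : 0 ≤ 2 * a)
  unfold LL
  nlinarith

theorem FF_lt {α a b : ℝ} (hα : 1 ≤ α) (ha : 0 < a) (ha' : a ≤ 1/2) (hb : 0 < b) (hb' : b ≤ 1/2)
    (hne : ¬ (a = 1/2 ∧ b = 1/2)) : FF α a b < LL α a b := by
  have h2 := mul_le_mul_of_nonneg_left (edge0 hα hb.le hb') (by linarith : 0 ≤ 1 - 2 * a)
  rcases lt_or_eq_of_le ha' with h | h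
  · have h1 : FF α a b < (1 - 2 * a) * b ^ α + 2 * a * FF α (1/2) b := by
      unfold FF
      exact (Real.rpow_lt_rpow (Real.sqrt_nonneg _) (norm_conv_lt ha h hb) (by linarith)).trans_le
        (conv_pow hα (by linarith) (by linarith) hb.le (Real.sqrt_nonneg _))
    have h3 := mul_le_mul_of_nonneg_left (edge1 hα hb.le hb') (by linarith : 0 ≤ 2 * a)
    unfold LL
    nlinarith
  · subst h
    have hb2 : b < 1/2 := lt_of_le_of_ne hb' fun h => hne ⟨rfl, h⟩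
    have h3 := edge1_lt hα hb hb2
    unfold LL
    nlinarith

theorem FF_zero {α : ℝ} (hα : 0 < α) : FF α 0 0 = 0 := by
  unfold FF
  rw [zero_pow (by norm_num), add_zero, Real.sqrt_zero, Real.zero_rpow hα.ne']

theorem FF_h0 (α : ℝ) : FF α (1/2) 0 = pp α := by unfold FF; rw [half_zero]; rfl
theorem FF_0h (α : ℝ) : FF α 0 (1/2) = pp α := by
  unfold FF; rw [add_comm, half_zero]; rfl
theorem FF_hh (α : ℝ) : FF α (1/2) (1/2) = qq α := by unfold FF; rw [half_half]; rfl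

/-- comparison with the exponent `2` -/
theorem FF_two {α a b : ℝ} (hα : 2 ≤ α) (ha : 0 ≤ a) (ha' : a ≤ 1/2) (hb : 0 ≤ b) (hb' : b ≤ 1/2) :
    FF α a b ≤ 2 * qq α * FF 2 a b := by
  unfold FF
  set r := √(a ^ 2 + b ^ 2) with hr
  have hr0 : 0 ≤ r := Real.sqrt_nonneg _
  have hr1 : r ≤ √(1/2) := by
    apply Real.sqrt_le_sqrt
    nlinarith
  have e1 : r ^ α = r ^ (α - 2) * r ^ (2:ℝ) := by
    rcases eq_or_lt_of_le hr0 with h | h
    · rw [← h, Real.zero_rpow (by linarith), Real.zero_rpow (by norm_num : (2:ℝ) ≠ 0), mul_zero]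
    · rw [← Real.rpow_add h]; congr 1; ring
  have e2 : 2 * qq α = √(1/2) ^ (α - 2) := by
    unfold qq
    rw [Real.rpow_sub (Real.sqrt_pos.2 (by norm_num))]
    have : √(1/2 : ℝ) ^ (2:ℝ) = 1/2 := by
      rw [Real.rpow_two, Real.sq_sqrt (by norm_num)]
    rw [this]
    ring
  rw [e1, e2]
  exact mul_le_mul_of_nonneg_right (Real.rpow_le_rpow hr0 hr1 (by linarith)) (Real.rpow_nonneg hr0 _)

end Pool.Agent.V1186.Torus
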