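import Pool.Agent.V1186.Torus.PD
import Pool.Agent.V1186.Torus.Ineq

set_option autoImplicit false

/-!
Distance energies on the flat torus: the maximum for exponents in `[1,2]`.
-/

namespace Pool.Agent.V1186.Torus

open MeasureTheory Set Topology
open scoped ENNReal

/-- distance on the flat torus -/
noncomputable def rho (x y : UnitAddCircle × UnitAddCircle) : ℝ :=
  √(‖x.1 - y.1‖ ^ 2 + ‖x.2 - y.2‖ ^ 2)

/-- energy -/
noncomputable def En (α : ℝ) (μ : Measure (UnitAddCircle × UnitAddCircle)) : ℝ :=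
  ∫ x, ∫ y, rho x y ^ α ∂μ ∂μ

/-- half period -/
noncomputable def hf : UnitAddCircle := ((1/2 : ℝ) : UnitAddCircle)

theorem hf_norm : ‖hf‖ = 1/2 := by
  unfold hf
  rw [nrm, abs_of_pos] <;> norm_num

theorem hf_add : hf + hf = 0 := by
  unfold hf
  rw [← AddCircle.coe_add]
  have : (1/2 + 1/2 : ℝ) = 1 := by norm_num
  rw [this, AddCircle.coe_period]

theorem hf_neg : -hf = hf := neg_eq_of_add_eq_zero_left hf_add

theorem norm_le_half (t : UnitAddCircle) : ‖t‖ ≤ 1/2 := by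
  have := AddCircle.norm_le_half_period (p := (1:ℝ)) (x := t) one_ne_zero
  rwa [abs_one] at this

theorem eq_hf {t : UnitAddCircle} (h : ‖t‖ = 1/2) : t = hf := by
  have hx := xi_mem t
  rw [← xi_coe t] at h ⊢
  rcases le_total (xi t) (1/2) with h1 | h1
  · rw [nrm (by rw [abs_of_nonneg hx.1]; exact h1), abs_of_nonneg hx.1] at h
    unfold hf; rw [h]
  · rw [nrm' h1 hx.2.le] at h
    unfold hf
    congr 1; linarith

/-- the kernel as a function on the product -/
theorem int_prod {μ : Measure (UnitAddCircle × UnitAddCircle)} [IsProbabilityMeasure μ]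
    {K : (UnitAddCircle × UnitAddCircle) × (UnitAddCircle × UnitAddCircle) → ℝ}
    (hK : Continuous K) : ∫ x, ∫ y, K (x, y) ∂μ ∂μ = ∫ p, K p ∂(μ.prod μ) :=
  (integral_prod K (hK.integrable_of_hasCompactSupport (HasCompactSupport.of_compactSpace K))).symm

theorem int_cont {μ : Measure (UnitAddCircle × UnitAddCircle)} [IsProbabilityMeasure μ]
    {K : (UnitAddCircle × UnitAddCircle) × (UnitAddCircle × UnitAddCircle) → ℝ}
    (hK : Continuous K) : Integrable K (μ.prod μ) :=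
  hK.integrable_of_hasCompactSupport (HasCompactSupport.of_compactSpace K)

theorem n1_cont : Continuous fun p : (UnitAddCircle × UnitAddCircle) × (UnitAddCircle × UnitAddCircle) =>
    ‖p.1.1 - p.2.1‖ := by fun_prop
theorem n2_cont : Continuous fun p : (UnitAddCircle × UnitAddCircle) × (UnitAddCircle × UnitAddCircle) =>
    ‖p.1.2 - p.2.2‖ := by fun_prop

theorem FF_cont {α : ℝ} (hα : 0 < α) :
    Continuous fun p : (UnitAddCircle × UnitAddCircle) × (UnitAddCircle × UnitAddCircle) =>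
      FF α ‖p.1.1 - p.2.1‖ ‖p.1.2 - p.2.2‖ := by
  unfold FF
  have h := ((n1_cont.pow 2).add (n2_cont.pow 2)).sqrt
  exact h.rpow_const fun _ => Or.inr hα.le

theorem LL_cont (α : ℝ) :
    Continuous fun p : (UnitAddCircle × UnitAddCircle) × (UnitAddCircle × UnitAddCircle) =>
      LL α ‖p.1.1 - p.2.1‖ ‖p.1.2 - p.2.2‖ := by
  unfold LL
  exact (continuous_const.mul (n1_cont.add n2_cont)).add (continuous_const.mul (n1_cont.mul n2_cont))

/-- the three positive definite terms -/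
noncomputable def E1 (μ : Measure (UnitAddCircle × UnitAddCircle)) : ℝ :=
  ∫ x, ∫ y, ek (x.1 - y.1) ∂μ ∂μ
/-- second coordinate -/
noncomputable def E2 (μ : Measure (UnitAddCircle × UnitAddCircle)) : ℝ :=
  ∫ x, ∫ y, ek (x.2 - y.2) ∂μ ∂μ
/-- mixed term -/
noncomputable def E12 (μ : Measure (UnitAddCircle × UnitAddCircle)) : ℝ :=
  ∫ x, ∫ y, ek (x.1 - y.1) * ek (x.2 - y.2) ∂μ ∂μ

theorem En_identity {α : ℝ} (hα : 0 < α) (μ : Measure (UnitAddCircle × UnitAddCircle))
    [IsProbabilityMeasure μ] :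
    (2 * pp α + qq α) / 4 - En α μ =
      (∫ p, (LL α ‖p.1.1 - p.2.1‖ ‖p.1.2 - p.2.2‖ - FF α ‖p.1.1 - p.2.1‖ ‖p.1.2 - p.2.2‖) ∂(μ.prod μ)) +
      qq α * (E1 μ + E2 μ) + 4 * (2 * pp α - qq α) * E12 μ := by
  have c1 : Continuous fun p : (UnitAddCircle × UnitAddCircle) × (UnitAddCircle × UnitAddCircle) =>
      ek (p.1.1 - p.2.1) := by unfold ek; fun_prop
  have c2 : Continuous fun p : (UnitAddCircle × UnitAddCircle) × (UnitAddCircle × UnitAddCircle) =>
      ek (p.1.2 - p.2.2) := by unfold ek; fun_prop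
  have c12 : Continuous fun p : (UnitAddCircle × UnitAddCircle) × (UnitAddCircle × UnitAddCircle) =>
      ek (p.1.1 - p.2.1) * ek (p.1.2 - p.2.2) := c1.mul c2
  have e0 : En α μ = ∫ p, FF α ‖p.1.1 - p.2.1‖ ‖p.1.2 - p.2.2‖ ∂(μ.prod μ) := by
    rw [← int_prod (FF_cont hα)]
    rfl
  have e1 : E1 μ = ∫ p, ek (p.1.1 - p.2.1) ∂(μ.prod μ) := by rw [← int_prod c1]; rfl
  have e2 : E2 μ = ∫ p, ek (p.1.2 - p.2.2) ∂(μ.prod μ) := by rw [← int_prod c2]; rfl
  have e3 : E12 μ = ∫ p, ek (p.1.1 - p.2.1) * ek (p.1.2 - p.2.2) ∂(μ.prod μ) := by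
    rw [← int_prod c12]; rfl
  rw [e0, e1, e2, e3, integral_sub (int_cont (LL_cont α)) (int_cont (FF_cont hα))]
  have hL : ∀ p : (UnitAddCircle × UnitAddCircle) × (UnitAddCircle × UnitAddCircle),
      LL α ‖p.1.1 - p.2.1‖ ‖p.1.2 - p.2.2‖ = (2 * pp α + qq α) / 4 -
        (qq α * ek (p.1.1 - p.2.1) + qq α * ek (p.1.2 - p.2.2)) -
        4 * (2 * pp α - qq α) * (ek (p.1.1 - p.2.1) * ek (p.1.2 - p.2.2)) := by
    intro p
    unfold LL ek
    ring
  have hLL : ∫ p, LL α ‖p.1.1 - p.2.1‖ ‖p.1.2 - p.2.2‖ ∂(μ.prod μ) = (2 * pp α + qq α) / 4 -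
      (qq α * (∫ p, ek (p.1.1 - p.2.1) ∂(μ.prod μ)) + qq α * ∫ p, ek (p.1.2 - p.2.2) ∂(μ.prod μ)) -
      4 * (2 * pp α - qq α) * ∫ p, ek (p.1.1 - p.2.1) * ek (p.1.2 - p.2.2) ∂(μ.prod μ) := by
    simp only [hL]
    have i1 := (int_cont (μ := μ) c1).const_mul (qq α)
    have i2 := (int_cont (μ := μ) c2).const_mul (qq α)
    have i3 := (int_cont (μ := μ) c12).const_mul (4 * (2 * pp α - qq α))
    have i4 : Integrable (fun p : (UnitAddCircle × UnitAddCircle) × (UnitAddCircle × UnitAddCircle) =>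
        qq α * ek (p.1.1 - p.2.1) + qq α * ek (p.1.2 - p.2.2)) (μ.prod μ) := i1.add i2
    have i5 : Integrable (fun p : (UnitAddCircle × UnitAddCircle) × (UnitAddCircle × UnitAddCircle) =>
        (2 * pp α + qq α) / 4 - (qq α * ek (p.1.1 - p.2.1) + qq α * ek (p.1.2 - p.2.2))) (μ.prod μ) :=
      (integrable_const _).sub i4
    rw [integral_sub i5 i3, integral_sub (integrable_const _) i4, integral_add i1 i2,
      integral_const_mul, integral_const_mul, integral_const_mul]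
    simp
  rw [hLL]
  ring

theorem gap_nonneg {α : ℝ} (hα : 1 ≤ α)
    (p : (UnitAddCircle × UnitAddCircle) × (UnitAddCircle × UnitAddCircle)) :
    0 ≤ LL α ‖p.1.1 - p.2.1‖ ‖p.1.2 - p.2.2‖ - FF α ‖p.1.1 - p.2.1‖ ‖p.1.2 - p.2.2‖ :=
  sub_nonneg.2 (FF_le hα (norm_nonneg _) (norm_le_half _) (norm_nonneg _) (norm_le_half _))

theorem E1_nonneg (μ : Measure (UnitAddCircle × UnitAddCircle)) [IsProbabilityMeasure μ] :
    0 ≤ E1 μ := pd1 μ measurable_fst
theorem E2_nonneg (μ : Measure (UnitAddCircle × UnitAddCircle)) [IsProbabilityMeasure μ] :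
    0 ≤ E2 μ := pd1 μ measurable_snd
theorem E12_nonneg (μ : Measure (UnitAddCircle × UnitAddCircle)) [IsProbabilityMeasure μ] :
    0 ≤ E12 μ := pd2 μ measurable_fst measurable_snd

/-- **Upper bound for `α ∈ [1,2]`.** -/
theorem En_le {α : ℝ} (h1 : 1 ≤ α) (h2 : α ≤ 2) (μ : Measure (UnitAddCircle × UnitAddCircle))
    [IsProbabilityMeasure μ] : En α μ ≤ (2 * pp α + qq α) / 4 := by
  have hid := En_identity (by linarith : 0 < α) μ
  have a1 : 0 ≤ ∫ p, (LL α ‖p.1.1 - p.2.1‖ ‖p.1.2 - p.2.2‖ -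
      FF α ‖p.1.1 - p.2.1‖ ‖p.1.2 - p.2.2‖) ∂(μ.prod μ) := integral_nonneg (gap_nonneg h1)
  have a2 : 0 ≤ qq α * (E1 μ + E2 μ) :=
    mul_nonneg (qq_pos α).le (add_nonneg (E1_nonneg μ) (E2_nonneg μ))
  have a3 : 0 ≤ 4 * (2 * pp α - qq α) * E12 μ := by
    apply mul_nonneg _ (E12_nonneg μ)
    rcases lt_or_eq_of_le h2 with h | h
    · linarith [(two_pp (α := α)).1 h]
    · linarith [(two_pp (α := α)).2.2 h]
  linarith

/-- Zero gap on the support. -/
theorem support_zero {μ : Measure (UnitAddCircle × UnitAddCircle)} [IsProbabilityMeasure μ]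
    {K : (UnitAddCircle × UnitAddCircle) × (UnitAddCircle × UnitAddCircle) → ℝ}
    (hK : Continuous K) (h0 : ∀ p, 0 ≤ K p) (hint : ∫ p, K p ∂(μ.prod μ) = 0)
    {x y : UnitAddCircle × UnitAddCircle} (hx : x ∈ μ.support) (hy : y ∈ μ.support) :
    K (x, y) = 0 := by
  by_contra hne
  have hpos : 0 < K (x, y) := lt_of_le_of_ne (h0 _) (Ne.symm hne)
  have hae := (integral_eq_zero_iff_of_nonneg h0 (int_cont hK)).1 hint
  have hopen : {p | 0 < K p} ∈ 𝓝 (x, y) := (isOpen_lt continuous_const hK).mem_nhds hpos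
  obtain ⟨U, hU, V, hV, hUV⟩ := mem_nhds_prod_iff.1 hopen
  have h1 := (Measure.mem_support_iff_forall x).1 hx U hU
  have h2 := (Measure.mem_support_iff_forall y).1 hy V hV
  have h3 : (μ.prod μ) (U ×ˢ V) = 0 := by
    apply measure_mono_null _ hae
    intro p hp hcon
    have h4 : 0 < K p := hUV hp
    have h5 : K p = 0 := hcon
    linarith
  rw [Measure.prod_prod] at h3
  rcases mul_eq_zero.1 h3 with h | h
  · exact h1.ne' h
  · exact h2.ne' h

/-- measure on four points -/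
noncomputable def four (u : UnitAddCircle × UnitAddCircle) (m0 m1 m2 m3 : ℝ≥0∞) :
    Measure (UnitAddCircle × UnitAddCircle) :=
  m0 • Measure.dirac u + m1 • Measure.dirac (u + (hf, 0)) + m2 • Measure.dirac (u + (0, hf)) +
    m3 • Measure.dirac (u + (hf, hf))

theorem four_int (u : UnitAddCircle × UnitAddCircle) {m0 m1 m2 m3 : ℝ≥0∞} (h0 : m0 ≠ ⊤) (h1 : m1 ≠ ⊤)
    (h2 : m2 ≠ ⊤) (h3 : m3 ≠ ⊤) (f : UnitAddCircle × UnitAddCircle → ℝ) :
    ∫ x, f x ∂(four u m0 m1 m2 m3) = m0.toReal * f u + m1.toReal * f (u + (hf, 0)) +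
      m2.toReal * f (u + (0, hf)) + m3.toReal * f (u + (hf, hf)) := by
  have hi : ∀ (m : ℝ≥0∞) (v : UnitAddCircle × UnitAddCircle), m ≠ ⊤ →
      Integrable f (m • Measure.dirac v) := fun m v hm =>
    (integrable_dirac (enorm_lt_top)).smul_measure hm
  unfold four
  rw [integral_add_measure (((hi _ _ h0).add_measure (hi _ _ h1)).add_measure (hi _ _ h2)) (hi _ _ h3),
    integral_add_measure ((hi _ _ h0).add_measure (hi _ _ h1)) (hi _ _ h2),
    integral_add_measure (hi _ _ h0) (hi _ _ h1)]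
  simp only [integral_smul_measure, integral_dirac, smul_eq_mul]

theorem four_double (u : UnitAddCircle × UnitAddCircle) {m0 m1 m2 m3 : ℝ≥0∞} (h0 : m0 ≠ ⊤)
    (h1 : m1 ≠ ⊤) (h2 : m2 ≠ ⊤) (h3 : m3 ≠ ⊤) (k : UnitAddCircle → UnitAddCircle → ℝ) :
    ∫ x, ∫ y, k (x.1 - y.1) (x.2 - y.2) ∂(four u m0 m1 m2 m3) ∂(four u m0 m1 m2 m3) =
      (m0.toReal ^ 2 + m1.toReal ^ 2 + m2.toReal ^ 2 + m3.toReal ^ 2) * k 0 0 +
      2 * (m0.toReal * m1.toReal + m2.toReal * m3.toReal) * k hf 0 +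
      2 * (m0.toReal * m2.toReal + m1.toReal * m3.toReal) * k 0 hf +
      2 * (m0.toReal * m3.toReal + m1.toReal * m2.toReal) * k hf hf := by
  simp only [four_int u h0 h1 h2 h3]
  simp only [Prod.fst_add, Prod.snd_add, add_zero, sub_self, sub_add_cancel_left, hf_neg,
    add_sub_cancel_left]
  ring

theorem ek_zero : ek 0 = 1/4 := by unfold ek; rw [norm_zero, sub_zero]
theorem ek_hf : ek hf = -(1/4) := by unfold ek; rw [hf_norm]; norm_num

theorem four_E1 (u : UnitAddCircle × UnitAddCircle) {m0 m1 m2 m3 : ℝ≥0∞} (h0 : m0 ≠ ⊤)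
    (h1 : m1 ≠ ⊤) (h2 : m2 ≠ ⊤) (h3 : m3 ≠ ⊤) : E1 (four u m0 m1 m2 m3) =
      1/4 * (m0.toReal + m2.toReal - m1.toReal - m3.toReal) ^ 2 := by
  unfold E1
  rw [four_double u h0 h1 h2 h3 (fun a _ => ek a), ek_zero, ek_hf]
  ring

theorem four_E2 (u : UnitAddCircle × UnitAddCircle) {m0 m1 m2 m3 : ℝ≥0∞} (h0 : m0 ≠ ⊤)
    (h1 : m1 ≠ ⊤) (h2 : m2 ≠ ⊤) (h3 : m3 ≠ ⊤) : E2 (four u m0 m1 m2 m3) =
      1/4 * (m0.toReal + m1.toReal - m2.toReal - m3.toReal) ^ 2 := by
  unfold E2
  rw [four_double u h0 h1 h2 h3 (fun _ b => ek b), ek_zero, ek_hf]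
  ring

theorem four_E12 (u : UnitAddCircle × UnitAddCircle) {m0 m1 m2 m3 : ℝ≥0∞} (h0 : m0 ≠ ⊤)
    (h1 : m1 ≠ ⊤) (h2 : m2 ≠ ⊤) (h3 : m3 ≠ ⊤) : E12 (four u m0 m1 m2 m3) =
      1/16 * (m0.toReal + m3.toReal - m1.toReal - m2.toReal) ^ 2 := by
  unfold E12
  rw [four_double u h0 h1 h2 h3 (fun a b => ek a * ek b), ek_zero, ek_hf]
  ring

theorem four_En (u : UnitAddCircle × UnitAddCircle) {m0 m1 m2 m3 : ℝ≥0∞} (h0 : m0 ≠ ⊤)
    (h1 : m1 ≠ ⊤) (h2 : m2 ≠ ⊤) (h3 : m3 ≠ ⊤) {α : ℝ} (hα : 0 < α) :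
    En α (four u m0 m1 m2 m3) =
      2 * (m0.toReal * m1.toReal + m2.toReal * m3.toReal + m0.toReal * m2.toReal +
        m1.toReal * m3.toReal) * pp α +
      2 * (m0.toReal * m3.toReal + m1.toReal * m2.toReal) * qq α := by
  unfold En rho
  rw [four_double u h0 h1 h2 h3 (fun a b => √(‖a‖ ^ 2 + ‖b‖ ^ 2) ^ α)]
  have k00 : √(‖(0:UnitAddCircle)‖ ^ 2 + ‖(0:UnitAddCircle)‖ ^ 2) ^ α = 0 := by
    rw [norm_zero]; exact FF_zero hα
  have k10 : √(‖hf‖ ^ 2 + ‖(0:UnitAddCircle)‖ ^ 2) ^ α = pp α := by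
    rw [norm_zero, hf_norm]; exact FF_h0 α
  have k01 : √(‖(0:UnitAddCircle)‖ ^ 2 + ‖hf‖ ^ 2) ^ α = pp α := by
    rw [norm_zero, hf_norm]; exact FF_0h α
  have k11 : √(‖hf‖ ^ 2 + ‖hf‖ ^ 2) ^ α = qq α := by
    rw [hf_norm]; exact FF_hh α
  rw [k00, k10, k01, k11]
  ring

/-- **Structure of measures with vanishing gap.** -/
theorem structure_four {μ : Measure (UnitAddCircle × UnitAddCircle)} [IsProbabilityMeasure μ]
    (h : ∀ x ∈ μ.support, ∀ y ∈ μ.support, x.1 = y.1 ∨ x.2 = y.2 ∨ (x.1 - y.1 = hf ∧ x.2 - y.2 = hf))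
    (hE1 : E1 μ = 0) (hE2 : E2 μ = 0) :
    ∃ (u : UnitAddCircle × UnitAddCircle) (m0 m1 m2 m3 : ℝ≥0∞), μ = four u m0 m1 m2 m3 := by
  have hsup : μ μ.supportᶜ = 0 := Measure.measure_compl_support
  have hae : ∀ᵐ x ∂μ, x ∈ μ.support := by
    rw [ae_iff]; exact hsup
  -- not on a vertical or a horizontal line
  have hV : ¬ ∀ x ∈ μ.support, ∀ y ∈ μ.support, x.1 = y.1 := by
    intro hv
    have h1 : E1 μ = 1/4 := by
      unfold E1
      have h2 : ∫ x, ∫ y, ek (x.1 - y.1) ∂μ ∂μ = ∫ x, (1/4 : ℝ) ∂μ := by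
        apply integral_congr_ae
        filter_upwards [hae] with x hx
        have h3 : ∫ y, ek (x.1 - y.1) ∂μ = ∫ y, (1/4 : ℝ) ∂μ := by
          apply integral_congr_ae
          filter_upwards [hae] with y hy
          rw [hv x hx y hy, sub_self, ek_zero]
        rw [h3]; simp
      rw [h2]; simp
    linarith
  have hH : ¬ ∀ x ∈ μ.support, ∀ y ∈ μ.support, x.2 = y.2 := by
    intro hv
    have h1 : E2 μ = 1/4 := by
      unfold E2
      have h2 : ∫ x, ∫ y, ek (x.2 - y.2) ∂μ ∂μ = ∫ x, (1/4 : ℝ) ∂μ := by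
        apply integral_congr_ae
        filter_upwards [hae] with x hx
        have h3 : ∫ y, ek (x.2 - y.2) ∂μ = ∫ y, (1/4 : ℝ) ∂μ := by
          apply integral_congr_ae
          filter_upwards [hae] with y hy
          rw [hv x hx y hy, sub_self, ek_zero]
        rw [h3]; simp
      rw [h2]; simp
    linarith
  -- there is a diagonal pair
  obtain ⟨u, hu, v, hv, hd1, hd2⟩ : ∃ u ∈ μ.support, ∃ v ∈ μ.support,
      u.1 - v.1 = hf ∧ u.2 - v.2 = hf := by
    by_contra hcon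
    push Not at hcon
    have h' : ∀ x ∈ μ.support, ∀ y ∈ μ.support, x.1 = y.1 ∨ x.2 = y.2 := by
      intro x hx y hy
      rcases h x hx y hy with h1 | h1 | ⟨h1, h2⟩
      · exact Or.inl h1
      · exact Or.inr h1
      · exact absurd h2 (hcon x hx y hy h1)
    push Not at hV hH
    obtain ⟨x, hx, y, hy, hxy⟩ := hV
    obtain ⟨x', hx', y', hy', hxy'⟩ := hH
    have h2 : x.2 = y.2 := (h' x hx y hy).resolve_left hxy
    have h1 : x'.1 = y'.1 := (h' x' hx' y' hy').resolve_right hxy'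
    have key : ∀ z ∈ μ.support, z.2 = x.2 := by
      intro z hz
      by_contra hne
      have a1 : z.1 = x.1 := (h' z hz x hx).resolve_right hne
      have a2 : z.1 = y.1 := (h' z hz y hy).resolve_right (by rw [← h2]; exact hne)
      exact hxy (a1.symm.trans a2)
    exact hxy' ((key x' hx').trans (key y' hy').symm)
  have hhf : hf ≠ 0 := by
    intro h0
    have := hf_norm
    rw [h0, norm_zero] at this
    norm_num at this
  have hu1 : u.1 = v.1 + hf := by rw [← hd1]; abel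
  have hu2 : u.2 = v.2 + hf := by rw [← hd2]; abel
  -- support is in the coset
  have hcos : μ.support ⊆ {v, v + (hf, 0), v + (0, hf), v + (hf, hf)} := by
    intro w hw
    have b1 := h w hw v hv
    have b2 := h w hw u hu
    simp only [mem_insert_iff, mem_singleton_iff]
    rcases b1 with b1 | b1 | ⟨b1, b1'⟩
    · rcases b2 with b2 | b2 | ⟨b2, b2'⟩
      · exfalso
        rw [b1, hu1] at b2
        exact hhf (by simpa using b2)
      · right; right; left
        ext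
        · simp [b1]
        · simp [b2, hu2]
      · left
        ext
        · exact b1
        · have : w.2 = u.2 + hf := by rw [← b2']; abel
          rw [this, hu2, add_assoc, hf_add, add_zero]
    · rcases b2 with b2 | b2 | ⟨b2, b2'⟩
      · right; left
        ext
        · simp [b2, hu1]
        · simp [b1]
      · exfalso
        rw [b1, hu2] at b2
        exact hhf (by simpa using b2)
      · left
        ext
        · have : w.1 = u.1 + hf := by rw [← b2]; abel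
          rw [this, hu1, add_assoc, hf_add, add_zero]
        · exact b1
    · right; right; right
      ext
      · show w.1 = v.1 + hf
        rw [← b1]; abel
      · show w.2 = v.2 + hf
        rw [← b1']; abel
  -- conclusion
  have hne01 : v ≠ v + (hf, 0) := by
    intro h0
    have := congrArg Prod.fst h0
    simp at this
    exact hhf this
  have hne02 : v ≠ v + (0, hf) := by
    intro h0
    have := congrArg Prod.snd h0
    simp at this
    exact hhf this
  have hne03 : v ≠ v + (hf, hf) := by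
    intro h0
    have := congrArg Prod.fst h0
    simp at this
    exact hhf this
  have hne12 : v + (hf, 0) ≠ v + (0, hf) := by
    intro h0
    have := congrArg Prod.fst h0
    simp at this
    exact hhf this
  have hne13 : v + (hf, 0) ≠ v + (hf, hf) := by
    intro h0
    have := congrArg Prod.snd h0
    simp at this
    exact hhf this
  have hne23 : v + (0, hf) ≠ v + (hf, hf) := by
    intro h0
    have := congrArg Prod.fst h0
    simp at this
    exact hhf this
  refine ⟨v, μ {v}, μ {v + (hf, 0)}, μ {v + (0, hf)}, μ {v + (hf, hf)}, ?_⟩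
  ext A hA
  unfold four
  simp only [Measure.coe_add, Measure.coe_smul, Pi.add_apply, Pi.smul_apply,
    Measure.dirac_apply' _ hA, smul_eq_mul]
  have hms : ∀ z : UnitAddCircle × UnitAddCircle, μ (A ∩ {z}) = μ {z} * A.indicator 1 z := by
    intro z
    by_cases hz : z ∈ A
    · rw [inter_eq_right.2 (singleton_subset_iff.2 hz), indicator_of_mem hz, Pi.one_apply, mul_one]
    · rw [indicator_of_notMem hz, mul_zero]
      have : A ∩ {z} = ∅ := by
        ext y
        simp only [mem_inter_iff, mem_singleton_iff, mem_empty_iff_false, iff_false]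
        rintro ⟨hy, rfl⟩
        exact hz hy
      rw [this, measure_empty]
  have hdec : μ A = μ (A ∩ {v, v + (hf, 0), v + (0, hf), v + (hf, hf)}) := by
    apply le_antisymm _ (measure_mono inter_subset_left)
    calc μ A ≤ μ ((A ∩ {v, v + (hf, 0), v + (0, hf), v + (hf, hf)}) ∪ μ.supportᶜ) := by
          apply measure_mono
          intro x hx
          by_cases hxs : x ∈ μ.support
          · exact Or.inl ⟨hx, hcos hxs⟩
          · exact Or.inr hxs
      _ ≤ μ (A ∩ {v, v + (hf, 0), v + (0, hf), v + (hf, hf)}) + μ μ.supportᶜ := measure_union_le _ _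
      _ = _ := by rw [hsup, add_zero]
  rw [hdec, ← hms, ← hms, ← hms, ← hms]
  have hsplit : A ∩ {v, v + (hf, 0), v + (0, hf), v + (hf, hf)} =
      ((A ∩ {v} ∪ A ∩ {v + (hf, 0)}) ∪ A ∩ {v + (0, hf)}) ∪ A ∩ {v + (hf, hf)} := by
    ext x
    simp only [mem_inter_iff, mem_insert_iff, mem_singleton_iff, mem_union]
    tauto
  have hsing : ∀ z : UnitAddCircle × UnitAddCircle, MeasurableSet (A ∩ {z}) := fun z =>
    hA.inter (measurableSet_singleton z)
  have hdisj : ∀ z z' : UnitAddCircle × UnitAddCircle, z ≠ z' → Disjoint (A ∩ {z}) (A ∩ {z'}) := by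
    intro z z' hzz
    rw [Set.disjoint_left]
    rintro x ⟨-, hx⟩ ⟨-, hx'⟩
    rw [mem_singleton_iff] at hx hx'
    exact hzz (hx.symm.trans hx')
  rw [hsplit, measure_union _ (hsing _), measure_union _ (hsing _), measure_union _ (hsing _)]
  · exact hdisj _ _ hne01
  · exact Disjoint.union_left (hdisj _ _ hne02) (hdisj _ _ hne12)
  · exact Disjoint.union_left (Disjoint.union_left (hdisj _ _ hne03) (hdisj _ _ hne13)) (hdisj _ _ hne23)

end Pool.Agent.V1186.Torus
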