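import Pool.Agent.V1186.Torus.Class

set_option autoImplicit false

/-!
The one dimensional potential `GG α t = ∫ √(‖t‖²+‖z‖²)^α dz` and the kink at the half period.
-/

namespace Pool.Agent.V1186.Torus

open MeasureTheory Set Topology
open scoped ENNReal

/-- one dimensional potential -/
noncomputable def GG (α : ℝ) (t : UnitAddCircle) : ℝ :=
  ∫ z : UnitAddCircle, √(‖t‖ ^ 2 + ‖z‖ ^ 2) ^ α

theorem sqrt_rpow {α a : ℝ} (ha : 0 ≤ a) : √a ^ α = a ^ (α / 2) := by
  rw [Real.sqrt_eq_rpow, ← Real.rpow_mul ha]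
  congr 1; ring

theorem kern_cont {α : ℝ} (hα : 0 < α) :
    Continuous fun p : UnitAddCircle × UnitAddCircle => √(‖p.1‖ ^ 2 + ‖p.2‖ ^ 2) ^ α := by
  have h : Continuous fun p : UnitAddCircle × UnitAddCircle => √(‖p.1‖ ^ 2 + ‖p.2‖ ^ 2) := by fun_prop
  exact h.rpow_const fun _ => Or.inr hα.le

theorem kern_int {α : ℝ} (hα : 0 < α) (t : UnitAddCircle) :
    Integrable fun z : UnitAddCircle => √(‖t‖ ^ 2 + ‖z‖ ^ 2) ^ α := by
  have h0 : Continuous fun z : UnitAddCircle => √(‖t‖ ^ 2 + ‖z‖ ^ 2) := by fun_prop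
  have h : Continuous fun z : UnitAddCircle => √(‖t‖ ^ 2 + ‖z‖ ^ 2) ^ α :=
    h0.rpow_const fun _ => Or.inr hα.le
  exact h.integrable_of_hasCompactSupport (HasCompactSupport.of_compactSpace _)

theorem GG_cont {α : ℝ} (hα : 0 < α) : Continuous (GG α) := by
  have h := continuous_parametric_integral_of_continuous (μ := (volume : Measure UnitAddCircle))
    (f := fun t z : UnitAddCircle => √(‖t‖ ^ 2 + ‖z‖ ^ 2) ^ α) (kern_cont hα) isCompact_univ
  simp only [Measure.restrict_univ] at h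
  exact h

theorem GG_congr {α : ℝ} {t u : UnitAddCircle} (h : ‖t‖ = ‖u‖) : GG α t = GG α u := by
  unfold GG; rw [h]

/-- small shift inequality -/
theorem pt_small {β s t : ℝ} (hβ : 0 < β) (hβ1 : β ≤ 1) (hs : 0 < s) (ht : 0 < t) :
    (s ^ 2 + t ^ 2) ^ β - (t ^ 2) ^ β ≤ s ^ (1 + β) * t ^ (β - 1) := by
  rcases le_or_gt t s with h | h
  · have h1 : (s ^ 2 + t ^ 2) ^ β ≤ (s ^ 2) ^ β + (t ^ 2) ^ β :=
      Real.rpow_add_le_add_rpow (by positivity) (by positivity) hβ.le hβ1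
    have h2 : (s ^ 2) ^ β = s ^ (1 + β) * s ^ (β - 1) := by
      rw [← Real.rpow_add hs, ← Real.rpow_natCast, ← Real.rpow_mul hs.le]
      congr 1; push_cast; ring
    have h3 : s ^ (β - 1) ≤ t ^ (β - 1) :=
      Real.rpow_le_rpow_of_nonpos ht h (by linarith)
    have h4 := mul_le_mul_of_nonneg_left h3 (Real.rpow_nonneg hs.le (1 + β))
    linarith
  · have ht2 : 0 < t ^ 2 := by positivity
    have e1 : s ^ 2 + t ^ 2 = t ^ 2 * (1 + s ^ 2 / t ^ 2) := by field_simp; ring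
    have h1 : (1 + s ^ 2 / t ^ 2) ^ β ≤ 1 + β * (s ^ 2 / t ^ 2) :=
      rpow_one_add_le_one_add_mul_self (by have : 0 ≤ s ^ 2 / t ^ 2 := by positivity
                                           linarith) hβ.le hβ1
    have e2 : (s ^ 2 + t ^ 2) ^ β = (t ^ 2) ^ β * (1 + s ^ 2 / t ^ 2) ^ β := by
      rw [e1, Real.mul_rpow ht2.le (by positivity)]
    have hp : 0 < (t ^ 2) ^ β := Real.rpow_pos_of_pos ht2 β
    have h2 : (s ^ 2 + t ^ 2) ^ β - (t ^ 2) ^ β ≤ (t ^ 2) ^ β * (s ^ 2 / t ^ 2) := by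
      rw [e2]
      have := mul_le_mul_of_nonneg_left h1 hp.le
      have h5 : β * (s ^ 2 / t ^ 2) ≤ 1 * (s ^ 2 / t ^ 2) :=
        mul_le_mul_of_nonneg_right hβ1 (by positivity)
      have h6 := mul_le_mul_of_nonneg_left h5 hp.le
      nlinarith
    have e3 : (t ^ 2) ^ β * (s ^ 2 / t ^ 2) = t ^ (β - 1) * (s ^ (1 + β) * (s ^ (1 - β) * t ^ (β - 1))) := by
      have a1 : (t ^ 2) ^ β / t ^ 2 = t ^ (β - 1) * t ^ (β - 1) := by
        rw [← Real.rpow_add ht, ← Real.rpow_natCast, ← Real.rpow_mul ht.le, ← Real.rpow_sub ht]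
        congr 1; push_cast; ring
      have a2 : s ^ 2 = s ^ (1 + β) * s ^ (1 - β) := by
        rw [← Real.rpow_add hs, ← Real.rpow_natCast]
        congr 1; push_cast; ring
      calc (t ^ 2) ^ β * (s ^ 2 / t ^ 2) = ((t ^ 2) ^ β / t ^ 2) * s ^ 2 := by ring
        _ = _ := by rw [a1, a2]; ring
    have h3 : s ^ (1 - β) * t ^ (β - 1) ≤ 1 := by
      have a1 : s ^ (1 - β) ≤ t ^ (1 - β) := Real.rpow_le_rpow hs.le h.le (by linarith)
      have a2 : t ^ (1 - β) * t ^ (β - 1) = 1 := by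
        rw [← Real.rpow_add ht]
        have : 1 - β + (β - 1) = 0 := by ring
        rw [this, Real.rpow_zero]
      have := mul_le_mul_of_nonneg_right a1 (Real.rpow_nonneg ht.le (β - 1))
      linarith
    have h4 : t ^ (β - 1) * (s ^ (1 + β) * (s ^ (1 - β) * t ^ (β - 1))) ≤
        t ^ (β - 1) * (s ^ (1 + β) * 1) :=
      mul_le_mul_of_nonneg_left (mul_le_mul_of_nonneg_left h3 (Real.rpow_nonneg hs.le _))
        (Real.rpow_nonneg ht.le _)
    rw [e3] at h2
    linarith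

/-- the kink at the half period -/
theorem pt_kink {β s z : ℝ} (hβ : 0 < β) (hβ1 : β ≤ 1) (hs : 0 < s) (hs1 : s ≤ 1/2) (hz : 0 ≤ z)
    (hz1 : z ≤ 1/2) :
    β * s / 2 ≤ ((1/2 : ℝ) ^ 2 + z ^ 2) ^ β - ((1/2 - s) ^ 2 + z ^ 2) ^ β := by
  set A : ℝ := (1/2 : ℝ) ^ 2 + z ^ 2 with hA
  set B : ℝ := (1/2 - s) ^ 2 + z ^ 2 with hB
  have hA0 : 0 < A := by positivity
  have hA1 : A ≤ 1 := by rw [hA]; nlinarith
  have hB0 : 0 ≤ B := by positivity
  have hAB : A - B = s - s ^ 2 := by rw [hA, hB]; ring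
  have e1 : B = A * (1 + (B - A) / A) := by field_simp; ring
  have h1 : (1 + (B - A) / A) ^ β ≤ 1 + β * ((B - A) / A) := by
    apply rpow_one_add_le_one_add_mul_self _ hβ.le hβ1
    rw [le_div_iff₀ hA0]; linarith
  have h2 : 0 ≤ 1 + (B - A) / A := by
    have : -1 ≤ (B - A) / A := by rw [le_div_iff₀ hA0]; linarith
    linarith
  have e2 : B ^ β = A ^ β * (1 + (B - A) / A) ^ β := by
    conv_lhs => rw [e1]
    rw [Real.mul_rpow hA0.le h2]
  have hAp : A ≤ A ^ β := by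
    have := Real.rpow_le_rpow_of_exponent_ge hA0 hA1 hβ1
    rwa [Real.rpow_one] at this
  have h3 : A ^ β * (1 + (B - A) / A) ^ β ≤ A ^ β * (1 + β * ((B - A) / A)) :=
    mul_le_mul_of_nonneg_left h1 (Real.rpow_nonneg hA0.le _)
  have h4 : A ^ β * (β * ((A - B) / A)) ≥ A * (β * ((A - B) / A)) := by
    apply mul_le_mul_of_nonneg_right hAp
    apply mul_nonneg hβ.le
    apply div_nonneg _ hA0.le
    rw [hAB]; nlinarith
  have h5 : A * (β * ((A - B) / A)) = β * (A - B) := by field_simp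
  have h6 : A ^ β * (1 + β * ((B - A) / A)) = A ^ β - A ^ β * (β * ((A - B) / A)) := by ring
  have h7 : β * (A - B) ≥ β * (s / 2) := by
    apply mul_le_mul_of_nonneg_left _ hβ.le
    rw [hAB]; nlinarith
  rw [e2]
  linarith

/-- almost every point of the circle is nonzero, and the singular weight is integrable -/
theorem mk_mp : MeasurePreserving (fun x : ℝ => (x : UnitAddCircle))
    (volume.restrict (Ioc (-(1/2) : ℝ) (-(1/2) + 1))) volume :=
  UnitAddCircle.measurePreserving_mk _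

theorem ae_ne_zero : ∀ᵐ z : UnitAddCircle, z ≠ 0 := by
  rw [ae_iff]
  simp only [ne_eq, not_not, ofPred_eq_eq_singleton]
  rw [← mk_mp.measure_preimage (measurableSet_singleton _).nullMeasurableSet,
    Measure.restrict_apply (mk_mp.measurable (measurableSet_singleton _))]
  have h : (fun x : ℝ => (x : UnitAddCircle)) ⁻¹' {0} ∩ Ioc (-(1/2) : ℝ) (-(1/2) + 1) ⊆ {0} := by
    rintro x ⟨hx, hx1, hx2⟩
    have hx' : (x : UnitAddCircle) = 0 := hx
    have h1 : ‖(x : UnitAddCircle)‖ = |x| := nrm (by rw [abs_le]; constructor <;> linarith)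
    rw [hx', norm_zero] at h1
    exact abs_eq_zero.1 h1.symm
  exact measure_mono_null h (by simp)

theorem weight_int {γ : ℝ} (hγ : -1 < γ) : Integrable fun z : UnitAddCircle => ‖z‖ ^ γ := by
  have hm : AEStronglyMeasurable (fun z : UnitAddCircle => ‖z‖ ^ γ) volume :=
    (measurable_norm.pow_const γ).aestronglyMeasurable
  rw [← mk_mp.integrable_comp hm]
  have h1 : IntervalIntegrable (fun x : ℝ => |x| ^ γ) volume 0 (1/2) := by
    have := intervalIntegral.intervalIntegrable_rpow' (a := 0) (b := 1/2) hγ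
    apply this.congr
    intro x hx
    rw [uIoc_of_le (by norm_num)] at hx
    show x ^ γ = |x| ^ γ
    rw [abs_of_pos hx.1]
  have h2 : IntervalIntegrable (fun x : ℝ => |x| ^ γ) volume (-(1/2)) 0 := by
    have := (IntervalIntegrable.iff_comp_neg (by simp)).1 h1
    simp only [abs_neg, neg_zero] at this
    exact this.symm
  have h3 : IntegrableOn (fun x : ℝ => |x| ^ γ) (Ioc (-(1/2)) (1/2)) volume :=
    (intervalIntegrable_iff_integrableOn_Ioc_of_le (by norm_num)).1 (h2.trans h1)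
  have e : (-(1/2) + 1 : ℝ) = 1/2 := by norm_num
  rw [e]
  apply h3.congr_fun _ measurableSet_Ioc
  intro x hx
  show |x| ^ γ = ‖(x : UnitAddCircle)‖ ^ γ
  rw [nrm]
  rw [abs_le]; constructor <;> linarith [hx.1, hx.2]

theorem GG_small {α s : ℝ} (hα : 0 < α) (hα2 : α ≤ 2) (hs : 0 < s) (hs1 : s ≤ 1/2) :
    GG α (s : UnitAddCircle) - GG α 0 ≤ s ^ (1 + α/2) * ∫ z : UnitAddCircle, ‖z‖ ^ (α/2 - 1) := by
  have hn : ‖(s : UnitAddCircle)‖ = s := by rw [nrm (by rw [abs_of_pos hs]; exact hs1), abs_of_pos hs]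
  unfold GG
  rw [← integral_sub (kern_int hα _) (kern_int hα _), ← integral_const_mul]
  apply integral_mono_ae ((kern_int hα _).sub (kern_int hα _))
    ((weight_int (by linarith)).const_mul _)
  filter_upwards [ae_ne_zero] with z hz
  have hz' : 0 < ‖z‖ := norm_pos_iff.2 hz
  show √(‖(s : UnitAddCircle)‖ ^ 2 + ‖z‖ ^ 2) ^ α - √(‖(0 : UnitAddCircle)‖ ^ 2 + ‖z‖ ^ 2) ^ α ≤ _
  rw [sqrt_rpow (by positivity), sqrt_rpow (by positivity), hn, norm_zero]
  have := pt_small (β := α/2) (by linarith) (by linarith) hs hz'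
  have e : (0:ℝ) ^ 2 + ‖z‖ ^ 2 = ‖z‖ ^ 2 := by ring
  rw [e]
  exact this

theorem GG_kink {α s : ℝ} (hα : 0 < α) (hα2 : α ≤ 2) (hs : 0 < s) (hs1 : s ≤ 1/2) :
    α / 4 * s ≤ GG α hf - GG α ((s : UnitAddCircle) + hf) := by
  have hn : ‖(s : UnitAddCircle) + hf‖ = 1/2 - s := by
    have e : (s : UnitAddCircle) + hf = ((s - 1/2 : ℝ) : UnitAddCircle) := by
      rw [← hf_neg]; unfold hf
      rw [AddCircle.coe_sub, sub_eq_add_neg]
    rw [e, nrm, abs_of_nonpos (by linarith)]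
    · ring
    · rw [abs_le]; constructor <;> linarith
  unfold GG
  rw [← integral_sub (kern_int hα _) (kern_int hα _)]
  have hc : α / 4 * s = ∫ z : UnitAddCircle, α / 4 * s := by
    rw [integral_const, Measure.real, UnitAddCircle.measure_univ]; simp
  rw [hc]
  apply integral_mono (integrable_const _) ((kern_int hα _).sub (kern_int hα _))
  intro z
  show α / 4 * s ≤ √(‖hf‖ ^ 2 + ‖z‖ ^ 2) ^ α - √(‖(s : UnitAddCircle) + hf‖ ^ 2 + ‖z‖ ^ 2) ^ α
  rw [sqrt_rpow (by positivity), sqrt_rpow (by positivity), hn, hf_norm]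
  have := pt_kink (β := α/2) (by linarith) (by linarith) hs hs1 (norm_nonneg z) (norm_le_half z)
  linarith

/-- the even part has a strict local maximum at zero -/
theorem exists_good {α : ℝ} (hα : 0 < α) (hα2 : α ≤ 2) : ∃ s : ℝ, 0 < s ∧ s ≤ 1/2 ∧
    GG α (s : UnitAddCircle) + GG α ((s : UnitAddCircle) + hf) < GG α 0 + GG α hf := by
  set M : ℝ := ∫ z : UnitAddCircle, ‖z‖ ^ (α/2 - 1) with hM
  have hM0 : 0 ≤ M := integral_nonneg fun z => Real.rpow_nonneg (norm_nonneg z) _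
  have hlim : Filter.Tendsto (fun s : ℝ => s ^ (α/2) * M) (𝓝[>] 0) (𝓝 0) := by
    have h1 : ContinuousAt (fun s : ℝ => s ^ (α/2) * M) 0 :=
      (Real.continuousAt_rpow_const 0 (α/2) (Or.inr (by linarith))).mul continuousAt_const
    have h2 := h1.tendsto.mono_left (nhdsWithin_le_nhds (s := Ioi 0))
    rwa [Real.zero_rpow (by linarith), zero_mul] at h2
  have hev : ∀ᶠ s : ℝ in 𝓝[>] 0, s ^ (α/2) * M < α / 4 :=
    hlim.eventually (gt_mem_nhds (by linarith))
  have hev2 : ∀ᶠ s : ℝ in 𝓝[>] 0, s ∈ Ioc (0:ℝ) (1/2) := Ioc_mem_nhdsGT (by norm_num)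
  obtain ⟨s, hs, hs0, hs1⟩ := (hev.and hev2).exists
  refine ⟨s, hs0, hs1, ?_⟩
  have a1 := GG_small hα hα2 hs0 hs1
  have a2 := GG_kink hα hα2 hs0 hs1
  rw [← hM] at a1
  have a3 : s ^ (1 + α/2) * M = s * (s ^ (α/2) * M) := by
    rw [Real.rpow_add hs0, Real.rpow_one]; ring
  rw [a3] at a1
  have a4 := mul_lt_mul_of_pos_left hs hs0
  linarith

end Pool.Agent.V1186.Torus
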