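import Mathlib

set_option autoImplicit false

/-!
Positive definite kernels on the circle: `1/4 - ‖x - y‖`.
-/

namespace Pool.Agent.V1186.Torus

open MeasureTheory Set

theorem pd {Ω X : Type*} [MeasurableSpace Ω] [MeasurableSpace X] (P : Measure Ω)
    [IsFiniteMeasure P] (μ : Measure X) [IsProbabilityMeasure μ] {φ : Ω × X → ℝ}
    (hφ : Measurable φ) (hb : ∀ p, |φ p| ≤ 1) :
    0 ≤ ∫ x, ∫ y, ∫ ω, φ (ω, x) * φ (ω, y) ∂P ∂μ ∂μ := by
  have bdd_int : ∀ {α : Type _} [MeasurableSpace α] (ν : Measure α) [IsFiniteMeasure ν]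
      {f : α → ℝ}, Measurable f → (∀ a, |f a| ≤ 1) → Integrable f ν := by
    intro α _ ν _ f hf hfb
    exact Integrable.of_bound hf.aestronglyMeasurable 1 (ae_of_all _ fun a => hfb a)
  set m : Ω → ℝ := fun ω => ∫ y, φ (ω, y) ∂μ with hm
  have hmm : Measurable m := by
    have : StronglyMeasurable (Function.uncurry fun ω y => φ (ω, y)) := hφ.stronglyMeasurable
    exact (this.integral_prod_right (ν := μ)).measurable
  have hmb : ∀ ω, |m ω| ≤ 1 := by
    intro ω
    have h1 := norm_integral_le_of_norm_le_const (μ := μ) (f := fun y => φ (ω, y)) (C := 1)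
      (ae_of_all _ fun y => hb (ω, y))
    simpa using h1
  have h1 : ∀ x, ∫ y, ∫ ω, φ (ω, x) * φ (ω, y) ∂P ∂μ = ∫ ω, φ (ω, x) * m ω ∂P := by
    intro x
    rw [integral_integral_swap]
    · congr 1
      ext ω
      rw [integral_const_mul]
    · have hmeas : Measurable (Function.uncurry fun (y : X) (ω : Ω) => φ (ω, x) * φ (ω, y)) := by
        have a1 : Measurable fun p : X × Ω => φ (p.2, x) :=
          hφ.comp (measurable_snd.prodMk measurable_const)
        have a2 : Measurable fun p : X × Ω => φ (p.2, p.1) :=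
          hφ.comp (measurable_snd.prodMk measurable_fst)
        exact a1.mul a2
      apply bdd_int _ hmeas
      rintro ⟨y, ω⟩
      show |φ (ω, x) * φ (ω, y)| ≤ 1
      rw [abs_mul]
      exact mul_le_one₀ (hb _) (abs_nonneg _) (hb _)
  simp only [h1]
  rw [integral_integral_swap]
  · apply integral_nonneg
    intro ω
    show 0 ≤ ∫ x, φ (ω, x) * m ω ∂μ
    rw [integral_mul_const]
    exact mul_self_nonneg _
  · have hmeas : Measurable (Function.uncurry fun (x : X) (ω : Ω) => φ (ω, x) * m ω) := by
      have a1 : Measurable fun p : X × Ω => φ (p.2, p.1) :=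
        hφ.comp (measurable_snd.prodMk measurable_fst)
      exact a1.mul (hmm.comp measurable_snd)
    apply bdd_int _ hmeas
    rintro ⟨x, ω⟩
    show |φ (ω, x) * m ω| ≤ 1
    rw [abs_mul]
    exact mul_le_one₀ (hb _) (abs_nonneg _) (hmb _)

/-- step function -/
noncomputable def st (c s : ℝ) : ℝ := if s ≤ c then 1 else -1

theorem st_int {c d : ℝ} (hc : 0 ≤ c) (hc' : c ≤ 1/2) (hd : 0 ≤ d) (hd' : d ≤ 1/2) :
    ∫ s in Ioc (0:ℝ) (1/2), st c s * st d s = 1/2 - 2 * |c - d| := by
  wlog h : c ≤ d generalizing c d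
  · have := this hd hd' hc hc' (le_of_not_ge h)
    rw [abs_sub_comm] at this
    rw [← this]
    congr 1
    ext s
    ring
  have e : ∀ s, st c s * st d s = 1 - (Ioc c d).indicator (fun _ => (2:ℝ)) s := by
    intro s
    unfold st
    by_cases h1 : s ≤ c
    · have h2 : s ≤ d := h1.trans h
      have h3 : s ∉ Ioc c d := fun h => absurd h1 (not_le.2 h.1)
      rw [if_pos h1, if_pos h2, indicator_of_notMem h3]; norm_num
    · by_cases h2 : s ≤ d
      · have h3 : s ∈ Ioc c d := ⟨not_le.1 h1, h2⟩
        rw [if_neg h1, if_pos h2, indicator_of_mem h3]; norm_num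
      · have h3 : s ∉ Ioc c d := fun h => h2 h.2
        rw [if_neg h1, if_neg h2, indicator_of_notMem h3]; norm_num
  simp only [e]
  rw [integral_sub (integrable_const _)]
  · rw [integral_const, integral_indicator measurableSet_Ioc, Measure.restrict_restrict measurableSet_Ioc,
      setIntegral_const, smul_eq_mul, smul_eq_mul, Measure.real, Measure.restrict_apply_univ,
      Real.volume_Ioc]
    have h3 : Ioc c d ∩ Ioc 0 (1/2) = Ioc c d := by
      apply inter_eq_left.2
      exact Ioc_subset_Ioc hc hd'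
    rw [h3, Real.volume_real_Ioc_of_le h, abs_of_nonpos (by linarith), ENNReal.toReal_ofReal (by norm_num)]
    ring
  · exact (integrable_const _).indicator measurableSet_Ioc

/-- representative in `[0,1)` -/
noncomputable def xi (a : UnitAddCircle) : ℝ := AddCircle.equivIco 1 0 a

theorem xi_mem (a : UnitAddCircle) : 0 ≤ xi a ∧ xi a < 1 := by
  have := (AddCircle.equivIco 1 0 a).2
  exact ⟨this.1, lt_of_lt_of_eq this.2 (zero_add 1)⟩

theorem xi_coe (a : UnitAddCircle) : ((xi a : ℝ) : UnitAddCircle) = a :=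
  AddCircle.coe_equivIco

theorem xi_meas : Measurable xi := by
  have h : Measurable (AddCircle.measurableEquivIco (T := 1) 0) :=
    (AddCircle.measurableEquivIco (T := 1) 0).measurable
  exact measurable_subtype_coe.comp h

/-- the folded representative in `[0,1/2)` and the sign -/
noncomputable def fd (a : UnitAddCircle) : ℝ := if xi a < 1/2 then xi a else xi a - 1/2
/-- the sign -/
noncomputable def et (a : UnitAddCircle) : ℝ := if xi a < 1/2 then 1 else -1

theorem fd_mem (a : UnitAddCircle) : 0 ≤ fd a ∧ fd a ≤ 1/2 := by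
  have := xi_mem a
  unfold fd
  split_ifs with h
  · exact ⟨this.1, h.le⟩
  · push Not at h
    constructor <;> linarith [this.2]

theorem nrm {x : ℝ} (h : |x| ≤ 1/2) : ‖(x : UnitAddCircle)‖ = |x| := by
  rw [AddCircle.norm_coe_eq_abs_iff (p := (1:ℝ)) one_ne_zero]
  rw [abs_one]; exact h

theorem nrm' {x : ℝ} (h : 1/2 ≤ x) (h' : x ≤ 1) : ‖(x : UnitAddCircle)‖ = 1 - x := by
  have e : ((x - 1 : ℝ) : UnitAddCircle) = (x : UnitAddCircle) := by
    rw [AddCircle.coe_sub, AddCircle.coe_period, sub_zero]
  rw [← e, nrm, abs_of_nonpos (by linarith)]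
  · ring
  · rw [abs_le]; constructor <;> linarith

theorem kernel (a b : UnitAddCircle) :
    et a * et b * (1/4 - |fd a - fd b|) = 1/4 - ‖a - b‖ := by
  have e : a - b = ((xi a - xi b : ℝ) : UnitAddCircle) := by
    rw [AddCircle.coe_sub, xi_coe, xi_coe]
  have ha := xi_mem a
  have hb := xi_mem b
  rw [e]
  unfold et fd
  split_ifs with h1 h2 h2
  · rw [nrm]
    · ring
    · rw [abs_le]; constructor <;> linarith
  · push Not at h2
    rw [← norm_neg, ← AddCircle.coe_neg, neg_sub]
    rcases le_total (xi b - xi a) (1/2) with h3 | h3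
    · rw [nrm, abs_of_nonneg (by linarith : 0 ≤ xi b - xi a), abs_of_nonneg (by linarith)]
      · ring
      · rw [abs_le]; constructor <;> linarith
    · rw [nrm' h3 (by linarith), abs_of_nonpos (by linarith)]
      ring
  · push Not at h1
    rcases le_total (xi a - xi b) (1/2) with h3 | h3
    · rw [nrm, abs_of_nonneg (by linarith : 0 ≤ xi a - xi b), abs_of_nonpos (by linarith)]
      · ring
      · rw [abs_le]; constructor <;> linarith
    · rw [nrm' h3 (by linarith), abs_of_nonneg (by linarith)]
      ring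
  · push Not at h1 h2
    rw [nrm]
    · have : xi a - 1/2 - (xi b - 1/2) = xi a - xi b := by ring
      rw [this]; ring
    · rw [abs_le]; constructor <;> linarith

/-- the test functions -/
noncomputable def chi (s : ℝ) (a : UnitAddCircle) : ℝ := et a * st (fd a) s

theorem chi_int (a b : UnitAddCircle) :
    ∫ s in Ioc (0:ℝ) (1/2), chi s a * chi s b = 2 * (1/4 - ‖a - b‖) := by
  have e : ∀ s, chi s a * chi s b = et a * et b * (st (fd a) s * st (fd b) s) := by
    intro s; unfold chi; ring
  simp only [e]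
  rw [integral_const_mul, st_int (fd_mem a).1 (fd_mem a).2 (fd_mem b).1 (fd_mem b).2, ← kernel]
  ring

theorem et_meas : Measurable et :=
  Measurable.ite (measurableSet_lt xi_meas measurable_const) measurable_const measurable_const

theorem fd_meas : Measurable fd :=
  Measurable.ite (measurableSet_lt xi_meas measurable_const) xi_meas (xi_meas.sub_const _)

theorem chi_meas : Measurable fun p : ℝ × UnitAddCircle => chi p.1 p.2 := by
  unfold chi st
  exact (et_meas.comp measurable_snd).mul (Measurable.ite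
    (measurableSet_le measurable_fst (fd_meas.comp measurable_snd)) measurable_const
    measurable_const)

theorem chi_abs (s : ℝ) (a : UnitAddCircle) : |chi s a| ≤ 1 := by
  unfold chi et st
  split_ifs <;> norm_num

/-- the kernel -/
noncomputable def ek (t : UnitAddCircle) : ℝ := 1/4 - ‖t‖

theorem ek_cont : Continuous ek := continuous_const.sub continuous_norm

theorem pd1 {X : Type*} [MeasurableSpace X] (μ : Measure X) [IsProbabilityMeasure μ]
    {f : X → UnitAddCircle} (hf : Measurable f) :
    0 ≤ ∫ x, ∫ y, ek (f x - f y) ∂μ ∂μ := by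
  have h := pd (volume.restrict (Ioc (0:ℝ) (1/2))) μ (φ := fun p => chi p.1 (f p.2))
    (chi_meas.comp (measurable_fst.prodMk (hf.comp measurable_snd))) (fun p => chi_abs _ _)
  simp only [chi_int] at h
  simp only [integral_const_mul] at h
  unfold ek
  linarith

theorem pd2 {X : Type*} [MeasurableSpace X] (μ : Measure X) [IsProbabilityMeasure μ]
    {f g : X → UnitAddCircle} (hf : Measurable f) (hg : Measurable g) :
    0 ≤ ∫ x, ∫ y, ek (f x - f y) * ek (g x - g y) ∂μ ∂μ := by
  have h := pd ((volume.restrict (Ioc (0:ℝ) (1/2))).prod (volume.restrict (Ioc (0:ℝ) (1/2)))) μ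
    (φ := fun p => chi p.1.1 (f p.2) * chi p.1.2 (g p.2))
    ((chi_meas.comp ((measurable_fst.comp measurable_fst).prodMk (hf.comp measurable_snd))).mul
      (chi_meas.comp ((measurable_snd.comp measurable_fst).prodMk (hg.comp measurable_snd))))
    (fun p => by
      show |chi p.1.1 (f p.2) * chi p.1.2 (g p.2)| ≤ 1
      rw [abs_mul]
      exact mul_le_one₀ (chi_abs _ _) (abs_nonneg _) (chi_abs _ _))
  have e : ∀ x y, ∫ ω, (chi ω.1 (f x) * chi ω.2 (g x)) * (chi ω.1 (f y) * chi ω.2 (g y))
      ∂((volume.restrict (Ioc (0:ℝ) (1/2))).prod (volume.restrict (Ioc (0:ℝ) (1/2)))) =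
      4 * (ek (f x - f y) * ek (g x - g y)) := by
    intro x y
    have e2 : (fun ω : ℝ × ℝ => (chi ω.1 (f x) * chi ω.2 (g x)) * (chi ω.1 (f y) * chi ω.2 (g y))) =
        fun ω => (chi ω.1 (f x) * chi ω.1 (f y)) * (chi ω.2 (g x) * chi ω.2 (g y)) := by
      ext ω; ring
    rw [e2, integral_prod_mul (fun s => chi s (f x) * chi s (f y)) (fun s => chi s (g x) * chi s (g y)),
      chi_int, chi_int]
    unfold ek
    ring
  simp only [e, integral_const_mul] at h
  linarith

end Pool.Agent.V1186.Torus
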