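import Pool.Agent.V1186.Torus.Gfun

set_option autoImplicit false

/-!
The uniform measure never maximizes the distance energy.
-/

namespace Pool.Agent.V1186.Torus

open MeasureTheory Set Topology
open scoped ENNReal

instance circleProb : IsProbabilityMeasure (volume : Measure UnitAddCircle) :=
  ⟨UnitAddCircle.measure_univ⟩

theorem GG_nonneg (α : ℝ) (t : UnitAddCircle) : 0 ≤ GG α t :=
  integral_nonneg fun _ => Real.rpow_nonneg (Real.sqrt_nonneg _) _

theorem GG_le_one {α : ℝ} (hα : 0 < α) (t : UnitAddCircle) : GG α t ≤ 1 := by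
  have h : ∫ z : UnitAddCircle, (1:ℝ) = 1 := by simp
  rw [← h]
  unfold GG
  apply integral_mono (kern_int hα t) (integrable_const _)
  intro z
  show √(‖t‖ ^ 2 + ‖z‖ ^ 2) ^ α ≤ 1
  apply Real.rpow_le_one (Real.sqrt_nonneg _) _ hα.le
  have h1 := norm_le_half t
  have h2 := norm_le_half z
  exact Real.sqrt_le_iff.2 ⟨by norm_num, by nlinarith [norm_nonneg t, norm_nonneg z]⟩

theorem inner_int {α : ℝ} (hα : 0 < α) (ν : Measure UnitAddCircle) [IsProbabilityMeasure ν]
    (x : UnitAddCircle × UnitAddCircle) :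
    ∫ y, rho x y ^ α ∂(ν.prod volume) = ∫ y, GG α (x.1 - y) ∂ν := by
  have hc0 : Continuous fun y : UnitAddCircle × UnitAddCircle => rho x y := by
    unfold rho; fun_prop
  have hc : Continuous fun y : UnitAddCircle × UnitAddCircle => rho x y ^ α :=
    hc0.rpow_const fun _ => Or.inr hα.le
  rw [integral_prod _ (hc.integrable_of_hasCompactSupport (HasCompactSupport.of_compactSpace _))]
  congr 1
  funext y
  unfold GG rho
  exact integral_sub_left_eq_self (fun z : UnitAddCircle => √(‖x.1 - y‖ ^ 2 + ‖z‖ ^ 2) ^ α) volume x.2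

theorem En_prod {α : ℝ} (hα : 0 < α) (ν : Measure UnitAddCircle) [IsProbabilityMeasure ν] :
    En α (ν.prod volume) = ∫ x, ∫ y, GG α (x - y) ∂ν ∂ν := by
  unfold En
  simp only [inner_int hα]
  rw [integral_fun_fst (μ := ν) (ν := (volume : Measure UnitAddCircle))
    (fun x => ∫ y, GG α (x - y) ∂ν)]
  simp

theorem wd_int {g : UnitAddCircle → ℝ} (hg : Measurable g) (h0 : ∀ x, 0 ≤ g x)
    (f : UnitAddCircle → ℝ) :
    ∫ x, f x ∂(volume.withDensity fun x => ENNReal.ofReal (g x)) = ∫ x, g x * f x := by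
  rw [integral_withDensity_eq_integral_toReal_smul hg.ennreal_ofReal
    (Filter.Eventually.of_forall fun _ => ENNReal.ofReal_lt_top)]
  simp only [ENNReal.toReal_ofReal (h0 _), smul_eq_mul]

theorem bint {f : UnitAddCircle × UnitAddCircle → ℝ} (hf : Measurable f) {C : ℝ}
    (hC : ∀ p, |f p| ≤ C) :
    Integrable f ((volume : Measure UnitAddCircle).prod (volume : Measure UnitAddCircle)) :=
  Integrable.of_bound hf.aestronglyMeasurable C (Filter.Eventually.of_forall hC)

/-- indicator of a small arc -/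
noncomputable def bb (r : ℝ) (x : UnitAddCircle) : ℝ := if ‖x‖ < r then 1 else 0

theorem bb_meas (r : ℝ) : Measurable (bb r) :=
  Measurable.ite (measurableSet_lt measurable_norm measurable_const) measurable_const measurable_const

theorem bb_nonneg (r : ℝ) (x : UnitAddCircle) : 0 ≤ bb r x := by
  unfold bb; split_ifs <;> norm_num

theorem bb_le (r : ℝ) (x : UnitAddCircle) : bb r x ≤ 1 := by
  unfold bb; split_ifs <;> norm_num

/-- shift points -/
noncomputable def sp (s : UnitAddCircle) : Fin 4 → UnitAddCircle := ![0, hf, s, s + hf]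
/-- signs -/
def cc : Fin 4 → ℝ := ![1, 1, -1, -1]

theorem cc_abs (i : Fin 4) : |cc i| = 1 := by
  fin_cases i <;> simp [cc]

/-- perturbation density -/
noncomputable def kk (r : ℝ) (s x : UnitAddCircle) : ℝ := ∑ i, cc i * bb r (x - sp s i)

/-- averaged kernel -/
noncomputable def RR (α : ℝ) (s w : UnitAddCircle) : ℝ :=
  ∑ i, ∑ j, cc i * cc j * GG α (w + sp s i - sp s j)

theorem RR_cont {α : ℝ} (hα : 0 < α) (s : UnitAddCircle) : Continuous (RR α s) := by
  unfold RR
  refine continuous_finsetSum _ fun i _ => continuous_finsetSum _ fun j _ => ?_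
  exact continuous_const.mul ((GG_cont hα).comp (by fun_prop))

theorem RR_zero (α : ℝ) (s : UnitAddCircle) :
    RR α s 0 = 4 * (GG α 0 + GG α hf - GG α s - GG α (s + hf)) := by
  have n1 : GG α (-s) = GG α s := GG_congr (norm_neg s)
  have n2 : GG α (s - hf) = GG α (s + hf) := by
    rw [sub_eq_add_neg, hf_neg]
  have n3 : GG α (hf - s) = GG α (s + hf) := by
    rw [← n2]; exact GG_congr (norm_sub_rev _ _)
  have n4 : GG α (-(s + hf)) = GG α (s + hf) := GG_congr (norm_neg _)
  have n5 : GG α (-hf) = GG α hf := GG_congr (norm_neg _)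
  unfold RR
  simp only [Fin.sum_univ_four, cc, sp, Matrix.cons_val_zero, Matrix.cons_val_one,
    Matrix.cons_val, zero_add]
  have e1 : hf - (s + hf) = -s := by abel
  have e2 : s - (s + hf) = -hf := by abel
  have e3 : s + hf - s = hf := by abel
  have e4 : s + hf - hf = s := by abel
  simp only [sub_zero, sub_self, zero_sub, e1, e2, e3, e4, n1, n2, n3, n4, n5]
  ring

theorem kk_meas (r : ℝ) (s : UnitAddCircle) : Measurable (kk r s) := by
  unfold kk
  refine Finset.measurable_fun_sum _ fun i _ => ?_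
  exact measurable_const.mul ((bb_meas r).comp (measurable_id.sub_const _))

theorem kk_ge (r : ℝ) (s x : UnitAddCircle) : -2 ≤ kk r s x := by
  unfold kk
  simp only [Fin.sum_univ_four, cc, Matrix.cons_val_zero, Matrix.cons_val_one, Matrix.cons_val]
  have h0 := bb_nonneg r (x - sp s 0)
  have h1 := bb_nonneg r (x - sp s 1)
  have h2 := bb_le r (x - sp s 2)
  have h3 := bb_le r (x - sp s 3)
  linarith

theorem kk_abs (r : ℝ) (s x : UnitAddCircle) : |kk r s x| ≤ 4 := by
  unfold kk
  simp only [Fin.sum_univ_four, cc, Matrix.cons_val_zero, Matrix.cons_val_one, Matrix.cons_val]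
  have h0 := bb_nonneg r (x - sp s 0)
  have h1 := bb_nonneg r (x - sp s 1)
  have h2 := bb_le r (x - sp s 2)
  have h3 := bb_le r (x - sp s 3)
  have h0' := bb_le r (x - sp s 0)
  have h1' := bb_le r (x - sp s 1)
  have h2' := bb_nonneg r (x - sp s 2)
  have h3' := bb_nonneg r (x - sp s 3)
  rw [abs_le]; constructor <;> linarith

theorem bb_int (r : ℝ) : Integrable (bb r) (volume : Measure UnitAddCircle) :=
  Integrable.of_bound (bb_meas r).aestronglyMeasurable 1 (Filter.Eventually.of_forall fun x => by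
    rw [Real.norm_eq_abs, abs_of_nonneg (bb_nonneg r x)]; exact bb_le r x)

theorem bb_int_pos {r : ℝ} (hr : 0 < r) : 0 < ∫ x : UnitAddCircle, bb r x := by
  have h : (fun x : UnitAddCircle => bb r x) = (Metric.ball (0 : UnitAddCircle) r).indicator 1 := by
    funext x
    unfold bb
    by_cases hx : ‖x‖ < r
    · rw [if_pos hx, indicator_of_mem (by rwa [mem_ball_zero_iff])]; rfl
    · rw [if_neg hx, indicator_of_notMem (by rwa [mem_ball_zero_iff])]
  rw [h, integral_indicator_one measurableSet_ball]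
  exact ENNReal.toReal_pos (Metric.measure_ball_pos _ _ hr).ne' (measure_ne_top _ _)

theorem kk_int (r : ℝ) (s : UnitAddCircle) : Integrable (kk r s) (volume : Measure UnitAddCircle) :=
  Integrable.of_bound (kk_meas r s).aestronglyMeasurable 4
    (Filter.Eventually.of_forall fun x => kk_abs r s x)

theorem kk_mean (r : ℝ) (s : UnitAddCircle) : ∫ x : UnitAddCircle, kk r s x = 0 := by
  unfold kk
  rw [integral_finsetSum _ fun i _ => ((bb_int r).comp_sub_right (sp s i)).const_mul (cc i)]
  have : ∀ i, ∫ x : UnitAddCircle, cc i * bb r (x - sp s i) = cc i * ∫ x : UnitAddCircle, bb r x := by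
    intro i
    rw [integral_const_mul, integral_sub_right_eq_self (bb r)]
  simp only [this]
  simp only [Fin.sum_univ_four, cc, Matrix.cons_val_zero, Matrix.cons_val_one, Matrix.cons_val]
  ring

theorem GGm {α : ℝ} (hα : 0 < α) : Measurable (GG α) := (GG_cont hα).measurable

theorem GGd_meas {α : ℝ} (hα : 0 < α) :
    Measurable fun p : UnitAddCircle × UnitAddCircle => GG α (p.1 - p.2) :=
  (GGm hα).comp (measurable_fst.sub measurable_snd)

theorem GG_abs {α : ℝ} (hα : 0 < α) (t : UnitAddCircle) : |GG α t| ≤ 1 := by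
  rw [abs_of_nonneg (GG_nonneg α t)]; exact GG_le_one hα t

theorem term_id {α : ℝ} (hα : 0 < α) (r : ℝ) (s : UnitAddCircle) :
    ∫ p : UnitAddCircle × UnitAddCircle, kk r s p.1 * kk r s p.2 * GG α (p.1 - p.2)
      ∂(volume.prod volume) =
    ∫ p : UnitAddCircle × UnitAddCircle, bb r p.1 * bb r p.2 * RR α s (p.1 - p.2)
      ∂(volume.prod volume) := by
  have e1 : ∀ p : UnitAddCircle × UnitAddCircle, kk r s p.1 * kk r s p.2 * GG α (p.1 - p.2) =
      ∑ i, ∑ j, cc i * cc j * (bb r (p.1 - sp s i) * bb r (p.2 - sp s j) * GG α (p.1 - p.2)) := by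
    intro p
    unfold kk
    rw [Finset.sum_mul_sum, Finset.sum_mul]
    refine Finset.sum_congr rfl fun i _ => ?_
    rw [Finset.sum_mul]
    refine Finset.sum_congr rfl fun j _ => ?_
    ring
  have e2 : ∀ p : UnitAddCircle × UnitAddCircle, bb r p.1 * bb r p.2 * RR α s (p.1 - p.2) =
      ∑ i, ∑ j, cc i * cc j * (bb r p.1 * bb r p.2 * GG α (p.1 - p.2 + sp s i - sp s j)) := by
    intro p
    unfold RR
    rw [Finset.mul_sum]
    refine Finset.sum_congr rfl fun i _ => ?_
    rw [Finset.mul_sum]
    refine Finset.sum_congr rfl fun j _ => ?_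
    ring
  have i1 : ∀ i j, Integrable (fun p : UnitAddCircle × UnitAddCircle =>
      cc i * cc j * (bb r (p.1 - sp s i) * bb r (p.2 - sp s j) * GG α (p.1 - p.2)))
      (volume.prod volume) := by
    intro i j
    apply Integrable.const_mul
    refine bint ?_ (C := 1) ?_
    · exact (((bb_meas r).comp (measurable_fst.sub_const _)).mul
        ((bb_meas r).comp (measurable_snd.sub_const _))).mul (GGd_meas hα)
    · intro p
      rw [abs_mul, abs_mul, abs_of_nonneg (bb_nonneg r _), abs_of_nonneg (bb_nonneg r _)]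
      have h1 := bb_le r (p.1 - sp s i)
      have h2 := bb_le r (p.2 - sp s j)
      exact mul_le_one₀ (mul_le_one₀ h1 (bb_nonneg _ _) h2) (abs_nonneg _) (GG_abs hα _)
  have i2 : ∀ i j, Integrable (fun p : UnitAddCircle × UnitAddCircle =>
      cc i * cc j * (bb r p.1 * bb r p.2 * GG α (p.1 - p.2 + sp s i - sp s j)))
      (volume.prod volume) := by
    intro i j
    apply Integrable.const_mul
    refine bint ?_ (C := 1) ?_
    · refine (((bb_meas r).comp measurable_fst).mul ((bb_meas r).comp measurable_snd)).mul ?_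
      exact (GGm hα).comp (((measurable_fst.sub measurable_snd).add_const _).sub_const _)
    · intro p
      rw [abs_mul, abs_mul, abs_of_nonneg (bb_nonneg r _), abs_of_nonneg (bb_nonneg r _)]
      exact mul_le_one₀ (mul_le_one₀ (bb_le r _) (bb_nonneg _ _) (bb_le r _)) (abs_nonneg _)
        (GG_abs hα _)
  simp only [e1, e2]
  rw [integral_finsetSum _ fun i _ => integrable_finsetSum _ fun j _ => i1 i j,
    integral_finsetSum _ fun i _ => integrable_finsetSum _ fun j _ => i2 i j]
  refine Finset.sum_congr rfl fun i _ => ?_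
  rw [integral_finsetSum _ fun j _ => i1 i j, integral_finsetSum _ fun j _ => i2 i j]
  refine Finset.sum_congr rfl fun j _ => ?_
  rw [← integral_add_right_eq_self (μ := (volume : Measure UnitAddCircle).prod
    (volume : Measure UnitAddCircle)) (fun p : UnitAddCircle × UnitAddCircle =>
      cc i * cc j * (bb r (p.1 - sp s i) * bb r (p.2 - sp s j) * GG α (p.1 - p.2))) (sp s i, sp s j)]
  congr 1
  funext p
  have a1 : (p + (sp s i, sp s j)).1 - sp s i = p.1 := by simp
  have a2 : (p + (sp s i, sp s j)).2 - sp s j = p.2 := by simp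
  have a3 : (p + (sp s i, sp s j)).1 - (p + (sp s i, sp s j)).2 = p.1 - p.2 + sp s i - sp s j := by
    simp only [Prod.fst_add, Prod.snd_add]; abel
  rw [a1, a2, a3]

theorem swap_norm (α : ℝ) (x y : UnitAddCircle) : GG α (x - y) = GG α (y - x) :=
  GG_congr (norm_sub_rev x y)

/-- mean of the potential -/
noncomputable def WW (α : ℝ) : ℝ := ∫ t : UnitAddCircle, GG α t

theorem conv_one (α : ℝ) (x : UnitAddCircle) : ∫ y : UnitAddCircle, GG α (x - y) = WW α :=
  integral_sub_left_eq_self (GG α) volume x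

theorem int_G {α : ℝ} (hα : 0 < α) :
    ∫ p : UnitAddCircle × UnitAddCircle, GG α (p.1 - p.2) ∂(volume.prod volume) = WW α := by
  rw [integral_prod _ (bint (GGd_meas hα) (fun p => GG_abs hα _))]
  simp only [conv_one]
  simp

theorem kG_int {α : ℝ} (hα : 0 < α) (r : ℝ) (s : UnitAddCircle) :
    Integrable (fun p : UnitAddCircle × UnitAddCircle => kk r s p.1 * GG α (p.1 - p.2))
      (volume.prod volume) := by
  refine bint (C := 4) (((kk_meas r s).comp measurable_fst).mul (GGd_meas hα)) fun p => ?_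
  rw [abs_mul]
  have h1 := kk_abs r s p.1
  have h2 := GG_abs hα (p.1 - p.2)
  nlinarith [abs_nonneg (kk r s p.1), abs_nonneg (GG α (p.1 - p.2))]

theorem kG_zero {α : ℝ} (hα : 0 < α) (r : ℝ) (s : UnitAddCircle) :
    ∫ p : UnitAddCircle × UnitAddCircle, kk r s p.1 * GG α (p.1 - p.2) ∂(volume.prod volume) = 0 := by
  rw [integral_prod _ (kG_int hα r s)]
  simp only [integral_const_mul, conv_one]
  rw [integral_mul_const, kk_mean, zero_mul]

theorem kG_int' {α : ℝ} (hα : 0 < α) (r : ℝ) (s : UnitAddCircle) :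
    Integrable (fun p : UnitAddCircle × UnitAddCircle => kk r s p.2 * GG α (p.1 - p.2))
      (volume.prod volume) := by
  refine bint (C := 4) (((kk_meas r s).comp measurable_snd).mul (GGd_meas hα)) fun p => ?_
  rw [abs_mul]
  have h1 := kk_abs r s p.2
  have h2 := GG_abs hα (p.1 - p.2)
  nlinarith [abs_nonneg (kk r s p.2), abs_nonneg (GG α (p.1 - p.2))]

theorem kG_zero' {α : ℝ} (hα : 0 < α) (r : ℝ) (s : UnitAddCircle) :
    ∫ p : UnitAddCircle × UnitAddCircle, kk r s p.2 * GG α (p.1 - p.2) ∂(volume.prod volume) = 0 := by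
  rw [← kG_zero hα r s, ← integral_prod_swap]
  congr 1
  funext p
  show kk r s p.1 * GG α (p.2 - p.1) = _
  rw [swap_norm α p.1 p.2]

theorem kkG_int {α : ℝ} (hα : 0 < α) (r : ℝ) (s : UnitAddCircle) :
    Integrable (fun p : UnitAddCircle × UnitAddCircle => kk r s p.1 * kk r s p.2 * GG α (p.1 - p.2))
      (volume.prod volume) := by
  refine bint (C := 16) ((((kk_meas r s).comp measurable_fst).mul
    ((kk_meas r s).comp measurable_snd)).mul (GGd_meas hα)) fun p => ?_
  rw [abs_mul, abs_mul]
  have h1 := kk_abs r s p.1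
  have h1' := kk_abs r s p.2
  have h2 := GG_abs hα (p.1 - p.2)
  have h3 : |kk r s p.1| * |kk r s p.2| ≤ 4 * 4 := mul_le_mul h1 h1' (abs_nonneg _) (by norm_num)
  have h4 : |kk r s p.1| * |kk r s p.2| * |GG α (p.1 - p.2)| ≤ (4 * 4) * 1 :=
    mul_le_mul h3 h2 (abs_nonneg _) (by norm_num)
  linarith

/-- perturbed measure on the circle -/
noncomputable def nus (r : ℝ) (s : UnitAddCircle) : Measure UnitAddCircle :=
  volume.withDensity fun x => ENNReal.ofReal (1 + 1/2 * kk r s x)

theorem dens_nonneg (r : ℝ) (s x : UnitAddCircle) : 0 ≤ 1 + 1/2 * kk r s x := by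
  have := kk_ge r s x
  linarith

theorem dens_meas (r : ℝ) (s : UnitAddCircle) : Measurable fun x => 1 + 1/2 * kk r s x :=
  measurable_const.add (measurable_const.mul (kk_meas r s))

theorem nus_prob (r : ℝ) (s : UnitAddCircle) : IsProbabilityMeasure (nus r s) := by
  constructor
  unfold nus
  have ii : Integrable (fun x : UnitAddCircle => 1 + 1/2 * kk r s x) volume :=
    (integrable_const _).add ((kk_int r s).const_mul _)
  rw [withDensity_apply _ MeasurableSet.univ, Measure.restrict_univ,
    ← ofReal_integral_eq_lintegral_ofReal ii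
      (Filter.Eventually.of_forall fun x => dens_nonneg r s x)]
  have : ∫ x : UnitAddCircle, (1 + 1/2 * kk r s x) = 1 := by
    have i1 : Integrable (fun x : UnitAddCircle => 1/2 * kk r s x) := (kk_int r s).const_mul _
    rw [integral_add (integrable_const _) i1, integral_const_mul, kk_mean]
    simp
  have e : ENNReal.ofReal (∫ x : UnitAddCircle, (1 + 1/2 * kk r s x)) = 1 := by
    rw [this, ENNReal.ofReal_one]
  exact e

theorem En_nus {α : ℝ} (hα : 0 < α) (r : ℝ) (s : UnitAddCircle) :
    En α ((nus r s).prod volume) = WW α + 1/4 *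
      ∫ p : UnitAddCircle × UnitAddCircle, bb r p.1 * bb r p.2 * RR α s (p.1 - p.2)
      ∂(volume.prod volume) := by
  have := nus_prob r s
  rw [En_prod hα]
  unfold nus
  rw [wd_int (dens_meas r s) (dens_nonneg r s)]
  simp only [wd_int (dens_meas r s) (dens_nonneg r s)]
  have i0 : Integrable (fun p : UnitAddCircle × UnitAddCircle => GG α (p.1 - p.2))
      ((volume : Measure UnitAddCircle).prod (volume : Measure UnitAddCircle)) :=
    bint (GGd_meas hα) (fun p => GG_abs hα _)
  have e0 : ∀ p : UnitAddCircle × UnitAddCircle,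
      (1 + 1/2 * kk r s p.1) * ((1 + 1/2 * kk r s p.2) * GG α (p.1 - p.2)) =
      GG α (p.1 - p.2) + 1/2 * (kk r s p.1 * GG α (p.1 - p.2)) +
        1/2 * (kk r s p.2 * GG α (p.1 - p.2)) +
        1/4 * (kk r s p.1 * kk r s p.2 * GG α (p.1 - p.2)) := fun p => by ring
  have j1 := (kG_int hα r s).const_mul (1/2)
  have j2 := (kG_int' hα r s).const_mul (1/2)
  have j3 := (kkG_int hα r s).const_mul (1/4)
  have j01 : Integrable (fun p : UnitAddCircle × UnitAddCircle => GG α (p.1 - p.2) +
      1/2 * (kk r s p.1 * GG α (p.1 - p.2)))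
      ((volume : Measure UnitAddCircle).prod (volume : Measure UnitAddCircle)) := i0.add j1
  have j012 : Integrable (fun p : UnitAddCircle × UnitAddCircle => GG α (p.1 - p.2) +
      1/2 * (kk r s p.1 * GG α (p.1 - p.2)) + 1/2 * (kk r s p.2 * GG α (p.1 - p.2)))
      ((volume : Measure UnitAddCircle).prod (volume : Measure UnitAddCircle)) := j01.add j2
  have j0123 : Integrable (fun p : UnitAddCircle × UnitAddCircle => GG α (p.1 - p.2) +
      1/2 * (kk r s p.1 * GG α (p.1 - p.2)) + 1/2 * (kk r s p.2 * GG α (p.1 - p.2)) +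
      1/4 * (kk r s p.1 * kk r s p.2 * GG α (p.1 - p.2)))
      ((volume : Measure UnitAddCircle).prod (volume : Measure UnitAddCircle)) := j012.add j3
  have hprod : ∫ x : UnitAddCircle, (1 + 1/2 * kk r s x) *
      ∫ y : UnitAddCircle, (1 + 1/2 * kk r s y) * GG α (x - y) =
      ∫ p : UnitAddCircle × UnitAddCircle,
        (1 + 1/2 * kk r s p.1) * ((1 + 1/2 * kk r s p.2) * GG α (p.1 - p.2))
        ∂(volume.prod volume) := by
    rw [integral_prod]
    · simp only [integral_const_mul]
    · simp only [e0]; exact j0123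
  rw [hprod]
  simp only [e0]
  rw [integral_add j012 j3, integral_add j01 j2, integral_add i0 j1, integral_const_mul,
    integral_const_mul, integral_const_mul, int_G hα, kG_zero hα, kG_zero' hα, term_id hα]
  ring

theorem En_sigma {α : ℝ} (hα : 0 < α) :
    En α ((volume : Measure UnitAddCircle).prod (volume : Measure UnitAddCircle)) = WW α := by
  rw [En_prod hα]
  simp only [conv_one]
  simp

theorem sigma_not_max_le_two {α : ℝ} (hα : 0 < α) (hα2 : α ≤ 2) :
    ¬ IsMax α ((volume : Measure UnitAddCircle).prod (volume : Measure UnitAddCircle)) := by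
  rintro ⟨-, hmax⟩
  obtain ⟨s, hs0, hs1, hlt⟩ := exists_good hα hα2
  have hR0 : 0 < RR α (s : UnitAddCircle) 0 := by
    rw [RR_zero]; linarith
  have hev : ∀ᶠ w in 𝓝 (0 : UnitAddCircle), RR α (s : UnitAddCircle) 0 / 2 < RR α (s : UnitAddCircle) w :=
    (RR_cont hα _).continuousAt.eventually (lt_mem_nhds (by linarith))
  obtain ⟨δ, hδ, hball⟩ := Metric.eventually_nhds_iff.1 hev
  have hmx := hmax _ (@Measure.prod.instIsProbabilityMeasure _ _ _ _ (nus (δ/2) (s : UnitAddCircle)) _
    (nus_prob _ _) circleProb)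
  rw [En_nus hα, En_sigma hα] at hmx
  have hb := bb_int_pos (half_pos hδ)
  have hI : ∫ p : UnitAddCircle × UnitAddCircle, bb (δ/2) p.1 * bb (δ/2) p.2 *
      (RR α (s : UnitAddCircle) 0 / 2) ∂(volume.prod volume) ≤
      ∫ p : UnitAddCircle × UnitAddCircle, bb (δ/2) p.1 * bb (δ/2) p.2 *
        RR α (s : UnitAddCircle) (p.1 - p.2) ∂(volume.prod volume) := by
    obtain ⟨C, hC⟩ := isCompact_univ.exists_bound_of_continuousOn (RR_cont hα (s : UnitAddCircle)).continuousOn
    apply integral_mono
    · refine bint (C := RR α (s : UnitAddCircle) 0 / 2) ?_ ?_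
      · exact (((bb_meas _).comp measurable_fst).mul ((bb_meas _).comp measurable_snd)).mul_const _
      · intro p
        rw [abs_mul, abs_mul, abs_of_nonneg (bb_nonneg _ _), abs_of_nonneg (bb_nonneg _ _),
          abs_of_pos (half_pos hR0)]
        have := mul_le_one₀ (bb_le (δ/2) p.1) (bb_nonneg _ _) (bb_le (δ/2) p.2)
        have h2 := mul_le_mul_of_nonneg_right this (half_pos hR0).le
        linarith
    · refine bint (C := C) ?_ ?_
      · exact (((bb_meas _).comp measurable_fst).mul ((bb_meas _).comp measurable_snd)).mul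
          ((RR_cont hα _).measurable.comp (measurable_fst.sub measurable_snd))
      · intro p
        rw [abs_mul, abs_mul, abs_of_nonneg (bb_nonneg _ _), abs_of_nonneg (bb_nonneg _ _)]
        have h1 := mul_le_one₀ (bb_le (δ/2) p.1) (bb_nonneg _ _) (bb_le (δ/2) p.2)
        have h2 := hC (p.1 - p.2) (mem_univ _)
        rw [Real.norm_eq_abs] at h2
        calc _ ≤ 1 * |RR α (s : UnitAddCircle) (p.1 - p.2)| :=
              mul_le_mul_of_nonneg_right h1 (abs_nonneg _)
          _ ≤ C := by rw [one_mul]; exact h2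
    · intro p
      show bb (δ/2) p.1 * bb (δ/2) p.2 * (RR α (s : UnitAddCircle) 0 / 2) ≤
        bb (δ/2) p.1 * bb (δ/2) p.2 * RR α (s : UnitAddCircle) (p.1 - p.2)
      by_cases h1 : ‖p.1‖ < δ/2
      · by_cases h2 : ‖p.2‖ < δ/2
        · apply mul_le_mul_of_nonneg_left _ (mul_nonneg (bb_nonneg _ _) (bb_nonneg _ _))
          refine (hball ?_).le
          rw [dist_zero_right]
          calc ‖p.1 - p.2‖ ≤ ‖p.1‖ + ‖p.2‖ := norm_sub_le _ _
            _ < δ := by linarith
        · have : bb (δ/2) p.2 = 0 := by unfold bb; rw [if_neg h2]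
          rw [this]; simp
      · have : bb (δ/2) p.1 = 0 := by unfold bb; rw [if_neg h1]
        rw [this]; simp
  have hI2 : ∫ p : UnitAddCircle × UnitAddCircle, bb (δ/2) p.1 * bb (δ/2) p.2 *
      (RR α (s : UnitAddCircle) 0 / 2) ∂(volume.prod volume) =
      (∫ x : UnitAddCircle, bb (δ/2) x) * (∫ x : UnitAddCircle, bb (δ/2) x) *
        (RR α (s : UnitAddCircle) 0 / 2) := by
    rw [integral_mul_const, integral_prod_mul]
  rw [hI2] at hI
  have : 0 < (∫ x : UnitAddCircle, bb (δ/2) x) * (∫ x : UnitAddCircle, bb (δ/2) x) *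
        (RR α (s : UnitAddCircle) 0 / 2) := mul_pos (mul_pos hb hb) (half_pos hR0)
  linarith

/-- **The uniform measure is never a maximizer.** -/
theorem sigma_not_max {α : ℝ} (hα : 0 < α) :
    ¬ IsMax α ((volume : Measure UnitAddCircle).prod (volume : Measure UnitAddCircle)) := by
  rcases le_or_gt α 2 with h | h
  · exact sigma_not_max_le_two hα h
  · intro hmax
    obtain ⟨u, hu⟩ := (isMax_gt_two h _).1 hmax
    apply sigma_not_max_le_two (by norm_num : (0:ℝ) < 2) le_rfl
    rw [hu]
    exact (isMax_nu (by norm_num) u).2 le_rfl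

end Pool.Agent.V1186.Torus
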